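import Pool.Agent.Lib.MP_5c318e_ag.T.TDefs
import Pool.Agent.Lib.MP_5c318e_ag.V.Alg

/-! Holomorphic sections of the top piece along plots: continuity and measurability of norms. -/

set_option autoImplicit false
set_option linter.unusedSectionVars false

namespace Pool.Agent.Lib.MP_5c318e_ag.V

open Matrix Filter Topology MeasureTheory Complex Metric
open scoped ComplexOrder ContDiff ComplexConjugate

noncomputable section

variable {ι : Type} [Fintype ι] [DecidableEq ι] {w : ℕ}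
  {A : Type} [NormedAddCommGroup A] [NormedSpace ℂ A] {U : Set A}
  {E : Type} [NormedAddCommGroup E] [NormedSpace ℂ E]
  {E' : Type} [NormedAddCommGroup E'] [NormedSpace ℂ E']

theorem Plot.tendsto {φ : E → A} {a : E} (h : Plot U φ a) : Tendsto φ (𝓝 a) (𝓝[U] φ a) :=
  tendsto_nhdsWithin_iff.2 ⟨h.1.continuousAt, h.2⟩

theorem Plot.mem {φ : E → A} {a : E} (h : Plot U φ a) : φ a ∈ U := h.2.self_of_nhds

theorem Plot.precomp {φ : E → A} {g : E' → E} {a : E'} (h : Plot U φ (g a))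
    (hg : AnalyticAt ℂ g a) : Plot U (fun b => φ (g b)) a :=
  ⟨h.1.comp hg, hg.continuousAt.eventually h.2⟩

theorem plot_const {s : A} (hs : s ∈ U) (a : E) : Plot U (fun _ : E => s) a :=
  ⟨analyticAt_const, Eventually.of_forall fun _ => hs⟩

namespace VHS

variable {V : VHS A U ι w} {φ : E → A} {u u' : E → ι → ℂ} {O : Set E}

theorem posH (V : VHS A U ι w) {y : A} (hy : y ∈ U) : (V.H y).PosDef := (V.phs y hy).pos

theorem nv_nonneg (V : VHS A U ι w) {y : A} (hy : y ∈ U) (v : ι → ℂ) : 0 ≤ V.nv y v :=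
  qf_nonneg (V.posH hy) v

theorem qf_nv (V : VHS A U ι w) {y : A} (hy : y ∈ U) (v : ι → ℂ) :
    qf (V.H y) v v = (V.nv y v : ℝ) := qf_self (V.posH hy) v

theorem norm_qf_le (V : VHS A U ι w) {y : A} (hy : y ∈ U) (v v' : ι → ℂ) :
    ‖qf (V.H y) v v'‖ ≤ V.nv y v + V.nv y v' := by
  have h := qf_cs (V.posH hy) v v'
  have h1 := V.nv_nonneg hy v
  have h2 := V.nv_nonneg hy v'
  refine le_of_sq_le_sq ?_ (by positivity)
  unfold VHS.nv at *
  nlinarith [mul_nonneg h1 h2]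

theorem HolTop.mono (h : V.HolTop φ u O) {O' : Set E} (hO : O' ⊆ O) : V.HolTop φ u O' :=
  fun a ha => h a (hO ha)

theorem HolTop.precomp (h : V.HolTop φ u O) {g : E' → E} {O' : Set E'}
    (hg : ∀ a ∈ O', AnalyticAt ℂ g a) (hm : Set.MapsTo g O' O) :
    V.HolTop (fun a => φ (g a)) (fun a => u (g a)) O' := fun a ha =>
  ⟨AnalyticAt.comp (g := fun a' => cx (V.κ (φ (g a)) (φ a')) *ᵥ u a') (h _ (hm ha)).1 (hg a ha),
    (h _ (hm ha)).2⟩

theorem HolTop.congr (h : V.HolTop φ u O) (hO : IsOpen O) (e : ∀ a ∈ O, u' a = u a) :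
    V.HolTop φ u' O := fun a ha =>
  ⟨(h a ha).1.congr (by
      filter_upwards [hO.mem_nhds ha] with b hb
      rw [e b hb]), by rw [e a ha]; exact (h a ha).2⟩

theorem continuousAt_qf {a : E} (hφ : Plot U φ a)
    (h : ContinuousAt (fun a' => cx (V.κ (φ a) (φ a')) *ᵥ u a') a)
    (h' : ContinuousAt (fun a' => cx (V.κ (φ a) (φ a')) *ᵥ u' a') a) :
    ContinuousAt (fun a' => qf (V.H (φ a')) (u a') (u' a')) a := by
  have hax := (V.ax E φ a hφ).1
  set π' : ℤ → E → Matrix ι ι ℂ :=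
    fun p a' => cx (V.κ (φ a) (φ a')) * V.π p (φ a') * cx (V.κ (φ a) (φ a'))⁻¹ with hπ
  have hM : SmM (fun a' => V.ψ (φ a) * wey (wt w) π' a') a :=
    (smM_const _).mul (SmM.sum _ fun p _ => (hax p).csmul _)
  have hc : ContinuousAt (fun a' => qf (V.ψ (φ a) * wey (wt w) π' a')
      (cx (V.κ (φ a) (φ a')) *ᵥ u a') (cx (V.κ (φ a) (φ a')) *ᵥ u' a')) a := by
    simp only [qf, dotProduct, mulVec.eq_1 (V.ψ (φ a) * wey (wt w) π' _)]
    refine tendsto_finsetSum _ fun i _ => ContinuousAt.mul ?_ ?_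
    · exact ((continuous_apply i).continuousAt.comp h).star
    · exact tendsto_finsetSum _ fun j _ => ContinuousAt.mul (hM i j).continuousAt
        ((continuous_apply j).continuousAt.comp h')
  refine hc.congr ?_
  filter_upwards [hφ.tendsto.eventually (V.flat _ hφ.mem)] with a' e
  rw [qf_mulVec_left, qf_mulVec_right, VHS.H, e]
  congr 1
  simp only [wey, hπ, Matrix.mul_sum, Matrix.sum_mul, Matrix.mul_smul, Matrix.smul_mul,
    Matrix.mul_assoc, cx_inv_mul, Matrix.mul_one]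

theorem HolTop.continuousOn_qf (hφ : ∀ a ∈ O, Plot U φ a) (h : V.HolTop φ u O)
    (h' : V.HolTop φ u' O) : ContinuousOn (fun a => qf (V.H (φ a)) (u a) (u' a)) O := fun a ha =>
  (continuousAt_qf (hφ a ha) (h a ha).1.continuousAt (h' a ha).1.continuousAt).continuousWithinAt

theorem HolTop.continuousOn_nv (hφ : ∀ a ∈ O, Plot U φ a) (h : V.HolTop φ u O) :
    ContinuousOn (fun a => V.nv (φ a) (u a)) O :=
  Complex.continuous_re.comp_continuousOn (h.continuousOn_qf hφ h)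

end VHS

theorem aesm_of_continuousOn {X F : Type} [TopologicalSpace X] [MeasurableSpace X]
    [OpensMeasurableSpace X] [SecondCountableTopology X] [TopologicalSpace F]
    [TopologicalSpace.PseudoMetrizableSpace F] {μ : Measure X} {f : X → F} {O : Set X}
    (hO : IsOpen O) (hae : ∀ᵐ x ∂μ, x ∈ O) (hf : ContinuousOn f O) :
    AEStronglyMeasurable f μ := by
  have := hf.aestronglyMeasurable (μ := μ) hO.measurableSet
  rwa [Measure.restrict_eq_self_of_ae_mem hae] at this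

section

variable {Z : Type} [NormedAddCommGroup Z] [NormedSpace ℂ Z] [MeasureSpace Z]
  {S : Set A} {Ω : Set (A × Z)}

theorem Fibd.isOpen_fz (h : Fibd S Ω) {s : A} (hs : s ∈ S) : IsOpen (fz Ω s) := by
  have := h.op ℂ (fun _ => s) Set.univ isOpen_univ fun a _ => plot_const hs a
  have e : fz Ω s = (fun x : Z => ((0 : ℂ), x)) ⁻¹' {p : ℂ × Z | p.1 ∈ Set.univ ∧ (s, p.2) ∈ Ω} := by
    ext x; simp [fz]
  rw [e]
  exact this.preimage (by fun_prop)

theorem Fibd.plot (h : Fibd S Ω) {φ : E → A} {O : Set E} (hO : IsOpen O)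
    (hφ : ∀ a ∈ O, Plot S φ a) : ∀ p ∈ {p : E × Z | p.1 ∈ O ∧ (φ p.1, p.2) ∈ Ω},
    Plot Ω (fun p : E × Z => (φ p.1, p.2)) p := fun _ hp =>
  ⟨(AnalyticAt.comp (g := φ) (hφ _ hp.1).1 analyticAt_fst).prod analyticAt_snd,
    Eventually.mono ((h.op E φ O hO hφ).mem_nhds hp) fun _ hq => hq.2⟩

theorem Fibd.plot_fz (h : Fibd S Ω) {s : A} (hs : s ∈ S) :
    ∀ x ∈ fz Ω s, Plot Ω (fun x : Z => (s, x)) x := fun _ hx =>
  ⟨analyticAt_const.prod analyticAt_id, (h.isOpen_fz hs).mem_nhds hx⟩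

namespace Stp

variable {V : VHS (A × Z) Ω ι w} {n w' : ℕ} (T : Stp V S n w') {s : A}

theorem up_inj (hs : s ∈ S) {v v' : Fin n → ℂ} (hv : T.W.π w' s *ᵥ v = v)
    (hv' : T.W.π w' s *ᵥ v' = v') (e : ∀ x ∈ fz Ω s, T.up s v x = T.up s v' x) : v = v' := by
  have h1 : T.W.π w' s *ᵥ (v - v') = v - v' := by rw [mulVec_sub, hv, hv']
  have h2 := T.up_iso s hs _ _ h1 h1
  rw [integral_congr_ae (g := fun _ => 0), integral_zero] at h2
  · exact sub_eq_zero.1 (qf_eq_zero (T.W.posH hs) (by rw [h2]; rfl))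
  · filter_upwards [T.fibd.null s hs] with x hx
    rw [map_sub, Pi.sub_apply, e x hx, sub_self, qf_zero_left]

theorem dn_congr (hs : s ∈ S) {u u' : Z → ι → ℂ} (hu : V.HolTop (fun x => (s, x)) u (fz Ω s))
    (hi : Integrable fun x => V.nv (s, x) (u x)) (e : ∀ x ∈ fz Ω s, u' x = u x) :
    T.dn s u' = T.dn s u := by
  have hu' := hu.congr (T.fibd.isOpen_fz hs) e
  have hi' : Integrable fun x => V.nv (s, x) (u' x) := hi.congr (by
    filter_upwards [T.fibd.null s hs] with x hx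
    rw [e x hx])
  obtain ⟨h1, h2⟩ := T.dn_top s hs u hu hi
  obtain ⟨h1', h2'⟩ := T.dn_top s hs u' hu' hi'
  exact T.up_inj hs h1' h1 fun x hx => by rw [h2 x hx, h2' x hx, e x hx]

theorem nv_up (hs : s ∈ S) {v : Fin n → ℂ} (hv : T.W.π w' s *ᵥ v = v) :
    T.W.nv s v = ∫ x, V.nv (s, x) (T.up s v x) := by
  have h := T.up_iso s hs v v hv hv
  rw [T.W.qf_nv hs, integral_congr_ae (g := fun x => (V.nv (s, x) (T.up s v x) : ℂ)),
    integral_complex_ofReal] at h
  · exact_mod_cast h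
  · filter_upwards [T.fibd.null s hs] with x hx
    exact V.qf_nv hx _

theorem nv_dn (hs : s ∈ S) {u : Z → ι → ℂ} (hu : V.HolTop (fun x => (s, x)) u (fz Ω s))
    (hi : Integrable fun x => V.nv (s, x) (u x)) :
    T.W.nv s (T.dn s u) = ∫ x, V.nv (s, x) (u x) := by
  obtain ⟨h1, h2⟩ := T.dn_top s hs u hu hi
  rw [T.nv_up hs h1]
  refine integral_congr_ae ?_
  filter_upwards [T.fibd.null s hs] with x hx
  rw [h2 x hx]

theorem qf_dn (hs : s ∈ S) {u u' : Z → ι → ℂ} (hu : V.HolTop (fun x => (s, x)) u (fz Ω s))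
    (hi : Integrable fun x => V.nv (s, x) (u x))
    (hu' : V.HolTop (fun x => (s, x)) u' (fz Ω s))
    (hi' : Integrable fun x => V.nv (s, x) (u' x)) :
    qf (T.W.H s) (T.dn s u) (T.dn s u') = ∫ x, qf (V.H (s, x)) (u x) (u' x) := by
  obtain ⟨h1, h2⟩ := T.dn_top s hs u hu hi
  obtain ⟨h1', h2'⟩ := T.dn_top s hs u' hu' hi'
  rw [T.up_iso s hs _ _ h1 h1']
  refine integral_congr_ae ?_
  filter_upwards [T.fibd.null s hs] with x hx
  rw [h2 x hx, h2' x hx]

theorem ofReal_nv_dn (hs : s ∈ S) {u : Z → ι → ℂ}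
    (hu : V.HolTop (fun x => (s, x)) u (fz Ω s)) (hi : Integrable fun x => V.nv (s, x) (u x)) :
    ENNReal.ofReal (T.W.nv s (T.dn s u)) = ∫⁻ x, ENNReal.ofReal (V.nv (s, x) (u x)) := by
  rw [T.nv_dn hs hu hi, ofReal_integral_eq_lintegral_ofReal hi]
  filter_upwards [T.fibd.null s hs] with x hx
  exact V.nv_nonneg hx _

end Stp

/-- the slice of a holomorphic family -/
theorem VHS.HolTop.slice {V : VHS (A × Z) Ω ι w} {φ : E → A} {O : Set E} {u : E × Z → ι → ℂ}
    (h : V.HolTop (fun p : E × Z => (φ p.1, p.2)) u {p | p.1 ∈ O ∧ (φ p.1, p.2) ∈ Ω}) {a : E}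
    (ha : a ∈ O) : V.HolTop (fun x => (φ a, x)) (fun x => u (a, x)) (fz Ω (φ a)) :=
  h.precomp (g := fun x => (a, x)) (fun _ _ => analyticAt_const.prod analyticAt_id)
    fun _ hx => ⟨ha, hx⟩

end

end

end Pool.Agent.Lib.MP_5c318e_ag.V
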