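import Pool.Agent.Lib.MP_5c318e_ag.T.Comp

/-! Change of the fibre variables, and integration over no variable. -/

set_option autoImplicit false
set_option linter.unusedSectionVars false

namespace Pool.Agent.Lib.MP_5c318e_ag.V

open Matrix Filter Topology MeasureTheory Complex Metric
open scoped ComplexOrder ContDiff ComplexConjugate

noncomputable section

variable {ι : Type} [Fintype ι] [DecidableEq ι] {w : ℕ}
  {A : Type} [NormedAddCommGroup A] [NormedSpace ℂ A]
  {Z : Type} [NormedAddCommGroup Z] [NormedSpace ℂ Z] [MeasureSpace Z] [BorelSpace Z]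
  {Z' : Type} [NormedAddCommGroup Z'] [NormedSpace ℂ Z'] [MeasureSpace Z'] [BorelSpace Z']
  {S : Set A} {Ω : Set (A × Z)}

theorem an_snd {E : Type} [NormedAddCommGroup E] [NormedSpace ℂ E] (e : Z' ≃L[ℂ] Z) (p : E × Z') :
    AnalyticAt ℂ (fun p : E × Z' => (p.1, e p.2)) p :=
  analyticAt_fst.prod (AnalyticAt.comp (g := e) (e.analyticAt _) analyticAt_snd)

/-- the variation in the new fibre variables -/
def VHS.chg (V : VHS (A × Z) Ω ι w) (e : Z' ≃L[ℂ] Z) :
    VHS (A × Z') {p | (p.1, e p.2) ∈ Ω} ι w :=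
  V.pull _ (fun p => (p.1, e p.2)) (fun p _ => an_snd e p) fun _ h => h

theorem Fibd.chg {e : Z' ≃L[ℂ] Z} (he : MeasurePreserving e)
    (h : Fibd S {p : A × Z' | (p.1, e p.2) ∈ Ω}) : Fibd S Ω where
  sub := fun y hy => h.sub (y.1, e.symm y.2) (by simpa using hy)
  op := fun E _ _ φ O hO hφ => by
    have := (h.op E φ O hO hφ).preimage (f := fun p : E × Z => (p.1, e.symm p.2)) (by fun_prop)
    convert this using 1
    ext p; simp
  null := fun s hs => by
    have he' : MeasurePreserving e.symm :=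
      he.symm e.toHomeomorph.toMeasurableEquiv
    filter_upwards [he'.quasiMeasurePreserving.ae (h.null s hs)] with x hx
    simpa using hx

variable {V : VHS (A × Z) Ω ι w} {e : Z' ≃L[ℂ] Z} {n w' : ℕ}

theorem VHS.End.chg {ε : A × Z → Matrix ι ι ℂ} (hε : V.End ε) :
    (V.chg e).End fun p => ε (p.1, e p.2) :=
  ⟨fun y hy => (((an_snd e y).continuousAt.continuousWithinAt
    (s := {p : A × Z' | (p.1, e p.2) ∈ Ω})).tendsto_nhdsWithin fun _ h => h).eventually (hε.flat _ hy),
    fun _ hy => hε.comm _ hy, fun _ hy => hε.adj _ hy⟩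

theorem VHS.HolTop.to_chg {s : A} {u : Z → ι → ℂ} (h : V.HolTop (fun x => (s, x)) u (fz Ω s)) :
    (V.chg e).HolTop (fun x => (s, x)) (fun x => u (e x)) (fz {p | (p.1, e p.2) ∈ Ω} s) :=
  h.precomp (g := e) (fun _ _ => e.analyticAt _) fun _ h => h

theorem VHS.HolTop.of_chg {s : A} {u : Z' → ι → ℂ}
    (h : (V.chg e).HolTop (fun x => (s, x)) u (fz {p | (p.1, e p.2) ∈ Ω} s)) :
    V.HolTop (fun x => (s, x)) (fun x => u (e.symm x)) (fz Ω s) := by
  have h1 : V.HolTop (fun x => (s, e x)) u (fz {p | (p.1, e p.2) ∈ Ω} s) := h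
  have := h1.precomp (g := e.symm) (O' := fz Ω s) (fun _ _ => e.symm.analyticAt _)
    fun x hx => by simpa [fz] using hx
  simpa using this

/-- change of the fibre variables -/
def Stp.chg (he : MeasurePreserving e) (T : Stp (V.chg e) S n w') : Stp V S n w' where
  W := T.W
  up := fun s =>
    { toFun := fun v x => T.up s v (e.symm x)
      map_add' := fun v v' => by
        funext x
        simp only [map_add, Pi.add_apply]
      map_smul' := fun c v => by
        funext x
        simp only [map_smul, Pi.smul_apply, RingHom.id_apply] }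
  dn := fun s u => T.dn s fun x => u (e x)
  ed := fun ε => T.ed fun p => ε (p.1, e p.2)
  fibd := T.fibd.chg he
  up_top := fun s hs v hv => by
    obtain ⟨h1, h2, h3⟩ := T.up_top s hs v hv
    refine ⟨h1.of_chg, (he.integrable_comp_emb e.toHomeomorph.measurableEmbedding).1 ?_, ?_⟩
    · simp only [Function.comp_def, LinearMap.coe_mk, AddHom.coe_mk,
        ContinuousLinearEquiv.symm_apply_apply]
      exact h2
    · simpa using h3
  up_iso := fun s hs v v' hv hv' => by
    rw [T.up_iso s hs v v' hv hv', ← he.integral_comp e.toHomeomorph.measurableEmbedding]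
    simp only [LinearMap.coe_mk, AddHom.coe_mk, ContinuousLinearEquiv.symm_apply_apply]
    rfl
  dn_top := fun s hs u hu hi => by
    obtain ⟨h1, h2⟩ := T.dn_top s hs _ hu.to_chg
      ((he.integrable_comp_emb e.toHomeomorph.measurableEmbedding).2 hi)
    refine ⟨h1, fun x hx => ?_⟩
    simpa using h2 (e.symm x) (by simpa [fz] using hx)
  ed_end := fun ε hε => T.ed_end _ hε.chg
  ed_up := fun ε hε s hs v x hx => by
    simpa using T.ed_up _ hε.chg s hs v (e.symm x) (by simpa [fz] using hx)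
  ed_idem := fun ε hε hi => T.ed_idem _ hε.chg fun y hy => hi _ hy
  fam_dn := fun E _ _ _ _ _ μ _ φ O u hO hφ hu hi => by
    obtain ⟨h1, h2⟩ := T.fam_dn E μ φ O (fun p => u (p.1, e p.2)) hO hφ
      (hu.precomp (g := fun p : E × Z' => (p.1, e p.2)) (fun p _ => an_snd e p) fun _ h => h)
      fun a ha => by
        obtain ⟨N, hN, h⟩ := hi a ha
        refine ⟨N, hN, lt_of_eq_of_lt (lintegral_congr fun a' => ?_) h⟩
        exact he.lintegral_comp_emb e.toHomeomorph.measurableEmbedding
          fun x => ENNReal.ofReal (V.nv (φ a', x) (u (a', x)))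
    exact ⟨h1, fun a ha =>
      (he.integrable_comp_emb e.toHomeomorph.measurableEmbedding).1 (h2 a ha)⟩
  fam_up := fun E _ _ _ φ O v hO hφ hv => by
    have h1 : V.HolTop (fun p : E × Z' => (φ p.1, e p.2)) _ _ := T.fam_up E φ O v hO hφ hv
    have := h1.precomp (g := fun p : E × Z => (p.1, e.symm p.2))
      (O' := {p | p.1 ∈ O ∧ (φ p.1, p.2) ∈ Ω}) (fun p _ => an_snd e.symm p)
      fun p hp => ⟨hp.1, by simpa using hp.2⟩
    simpa using this

/-- integration over no variable -/
def Stp.zero {r : ℕ} {Ω : Set (A × (Fin 0 → ℂ))} (V : VHS (A × (Fin 0 → ℂ)) Ω (Fin r) w)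
    (h : ∀ p, p ∈ Ω ↔ p.1 ∈ S) : Stp V S r w where
  W := V.pull S (fun a => (a, 0)) (fun _ _ => analyticAt_id.prod analyticAt_const)
    fun _ ha => (h _).2 ha
  up := fun _ => LinearMap.pi fun _ => LinearMap.id
  dn := fun _ u => u 0
  ed := fun ε a => ε (a, 0)
  fibd :=
    { sub := fun y hy => (h y).1 hy
      op := fun E _ _ φ O hO hφ => by
        convert hO.preimage (continuous_fst (X := E) (Y := Fin 0 → ℂ)) using 1
        ext p
        exact ⟨fun h => h.1, fun hp => ⟨hp, (h _).2 (hφ _ hp).mem⟩⟩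
      null := fun s hs => Eventually.of_forall fun x => (h _).2 hs }
  up_top := fun s hs v hv => by
    refine ⟨fun x _ => ⟨?_, by rw [Subsingleton.elim x 0]; exact hv⟩, Integrable.of_finite, rfl⟩
    refine (analyticAt_const (v := cx (V.κ (s, x) (s, x)) *ᵥ v)).congr
      (Eventually.of_forall fun y => ?_)
    rw [Subsingleton.elim y x]
    rfl
  up_iso := fun s hs v v' _ _ => by
    have : (fun x : Fin 0 → ℂ => qf (V.H (s, x)) v v') = fun _ => qf (V.H (s, 0)) v v' := by
      funext x
      rw [Subsingleton.elim x 0]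
    change qf (V.H (s, 0)) v v' = ∫ x : Fin 0 → ℂ, qf (V.H (s, x)) v v'
    rw [this]
    simp [Measure.real, volume_pi]
  dn_top := fun s hs u hu _ =>
    ⟨(hu 0 ((h _).2 hs)).2, fun x _ => by rw [Subsingleton.elim x 0]; rfl⟩
  ed_end := fun ε hε =>
    ⟨fun y hy => ((((continuous_id.prodMk continuous_const).continuousWithinAt
      (s := S) (x := y)).tendsto_nhdsWithin fun _ ha => (h _).2 ha).eventually
        (hε.flat _ ((h _).2 hy))), fun _ hy => hε.comm _ ((h _).2 hy),
      fun _ hy => hε.adj _ ((h _).2 hy)⟩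
  ed_up := fun ε _ s _ v x _ => by rw [Subsingleton.elim x 0]; rfl
  ed_idem := fun ε _ hi s hs => hi _ ((h _).2 hs)
  fam_dn := fun E _ _ _ _ _ μ _ φ O u _ hφ hu _ =>
    ⟨hu.precomp (g := fun a => (a, 0)) (fun _ _ => analyticAt_id.prod analyticAt_const)
      fun a ha => ⟨ha, (h _).2 (hφ a ha).mem⟩, fun _ _ => Integrable.of_finite⟩
  fam_up := fun E _ _ _ φ O v _ _ hv => by
    have h1 : V.HolTop (fun a => (φ a, 0)) v O := hv
    have := h1.precomp (g := fun p : E × (Fin 0 → ℂ) => p.1)
      (O' := {p | p.1 ∈ O ∧ (φ p.1, p.2) ∈ Ω}) (fun _ _ => analyticAt_fst) fun _ hp => hp.1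
    have e : (fun p : E × (Fin 0 → ℂ) => (φ p.1, p.2)) = fun p => (φ p.1, 0) := by
      funext p
      rw [Subsingleton.elim p.2 0]
    rw [e]
    exact this

/-- integration over one variable -/
def Step.stp {Ω : Set (A × ℂ)} {V : VHS (A × ℂ) Ω ι w} (T : Step V S n) (h : Fibd S Ω) :
    Stp V S n (w + 1) :=
  ⟨T.W, T.up, T.dn, T.ed, h, T.up_top, T.up_iso, T.dn_top, T.ed_end, T.ed_up, T.ed_idem,
    T.fam_dn, T.fam_up⟩

end

end Pool.Agent.Lib.MP_5c318e_ag.V
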