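import Pool.Agent.Lib.MP_5c318e_ag.T.Geo
import Pool.Agent.Lib.MP_5c318e_ag.T.Tr
import Pool.Agent.Lib.MP_5c318e_ag.V.Step

/-! Integration over all the fibre variables. -/

set_option autoImplicit false
set_option linter.unusedSectionVars false

namespace Pool.Agent.Lib.MP_5c318e_ag.V

open Filter Topology MeasureTheory Polynomial
open Pool.Agent.Lib.MP_5c318e_ag.Tw

noncomputable section

theorem mp_cons (N : ℕ) : MeasurePreserving (Fin.consEquivL ℂ fun _ : Fin (N + 1) => ℂ) := by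
  convert (volume_preserving_piFinSuccAbove (fun _ : Fin (N + 1) => ℂ) 0).symm using 1
  funext x
  simp [MeasurableEquiv.piFinSuccAbove, Fin.consEquivL, Fin.consLinearEquiv, Fin.consEquiv]

theorem tower_fin (N : ℕ) : ∀ (A : Type) [NormedAddCommGroup A] [NormedSpace ℂ A] [CompleteSpace A]
    (R : Type) [CommRing R] [IsDomain R] [CharZero R] (ev : A → R →+* ℂ) (S0 : Set A),
    AnEv S0 ev → ∀ Δ : MvPolynomial (Fin N) R, Δ ≠ 0 →
    ∃ δ : R, δ ≠ 0 ∧ ∃ Δ1, Δ ∣ Δ1 ∧ ∀ S ⊆ S0, (∀ a ∈ S, ev a δ ≠ 0) → Charted S →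
      IsPreconnected S → IsPreconnected (off S ev Δ1) ∧ Fibd S (off S ev Δ1) ∧
        ∀ (r w : ℕ) (V : VHS (A × (Fin N → ℂ)) (off S ev Δ1) (Fin r) w),
          ∃ n, Nonempty (Stp V S n (w + N)) := by
  induction N with
  | zero =>
    intro A _ _ _ R _ _ _ ev S0 _ Δ hΔ
    have e := MvPolynomial.eq_C_of_isEmpty Δ
    refine ⟨Δ.coeff 0, fun h => hΔ (by rw [e, h, map_zero]), Δ, dvd_rfl, fun S _ hδ _ hS => ?_⟩
    have h : ∀ p, p ∈ off S ev Δ ↔ p.1 ∈ S := fun p =>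
      ⟨fun h => h.1, fun h => ⟨h, by rw [e, MvPolynomial.eval₂_C]; exact hδ _ h⟩⟩
    refine ⟨?_, ⟨fun y hy => (h y).1 hy, fun E _ _ φ O hO hφ => ?_,
      fun s hs => Eventually.of_forall fun x => (h _).2 hs⟩, fun r w V => ⟨r, ⟨Stp.zero V h⟩⟩⟩
    · convert hS.prod (isPreconnected_univ (α := Fin 0 → ℂ)) using 1
      ext p
      simp [h]
    · convert hO.preimage (continuous_fst (X := E) (Y := Fin 0 → ℂ)) using 1
      ext p
      exact ⟨fun h => h.1, fun hp => ⟨hp, (h _).2 (hφ _ hp).mem⟩⟩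
  | succ N ih =>
    intro A _ _ _ R _ _ _ ev S0 hev Δ hΔ
    obtain ⟨d, hd, D, hD, H⟩ := ih (A × ℂ) R[X] _ _ hev.step (spl R N Δ) (by simpa using hΔ)
    obtain ⟨q, c, hc, h1, h2, h3⟩ := exists_sep hd
    refine ⟨c, hc, (spl R N).symm (MvPolynomial.C q * D), ?_, fun S hS0 hδ hch hS => ?_⟩
    · have := map_dvd (spl R N).symm (hD.mul_left (MvPolynomial.C q))
      simpa using this
    have hR := roots_of_sep (hev.mono hS0) fun s hs => (sep_map h2 h3 (ev s) (hδ s hs)).2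
    have hF := hR.fibd fun _ h => h.1
    obtain ⟨a1, a2, a3⟩ := H _ (fun p hp => ⟨hS0 hp.1, trivial⟩)
      (fun p hp => ne_of_dvd h1 (ev p.1) (hδ _ hp.1) hp.2) (hF.charted hch)
      (hF.preconnected hch hS fun s hs => hR.preconnected_fb hs)
    set e := Fin.consEquivL ℂ fun _ : Fin (N + 1) => ℂ with he
    have hΩ : off {p : A × ℂ | p.1 ∈ S ∧ q.eval₂ (ev p.1) p.2 ≠ 0}
        (fun p : A × ℂ => eval₂RingHom (ev p.1) p.2) D = asc ⁻¹' {p : A × ℂ × (Fin N → ℂ) |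
          (p.1, e p.2) ∈ off S ev ((spl R N).symm (MvPolynomial.C q * D))} := by
      ext p
      simp [off, asc, ← eval_spl, he, Fin.consEquivL, Fin.consLinearEquiv, Fin.consEquiv,
        and_assoc]
    rw [hΩ] at a1 a2 a3
    refine ⟨?_, (hF.comp a2).chg (mp_cons N), fun r w V => ?_⟩
    · convert a1.image (fun p => (p.1.1, e (p.1.2, p.2))) (by fun_prop) using 1
      ext p
      refine ⟨fun hp => ⟨((p.1, (e.symm p.2).1), (e.symm p.2).2), ?_, by simp⟩, ?_⟩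
      · simpa [asc] using hp
      · rintro ⟨p, hp, rfl⟩
        exact hp
    · obtain ⟨n1, ⟨T2⟩⟩ := a3 r w (V.chg e).asc
      obtain ⟨n, ⟨T1⟩⟩ := step T2.W hch hS hR
      exact ⟨n, ⟨(T2.comp (T1.stp hF)).chg (mp_cons N)⟩⟩

variable {A : Type} [NormedAddCommGroup A] [NormedSpace ℂ A]

/-- the part of `S × ℂ^ν` where a polynomial does not vanish -/
def offn {R ν : Type} [CommRing R] (S : Set A) (ev : A → R →+* ℂ) (Δ : MvPolynomial ν R) :
    Set (A × (ν → ℂ)) :=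
  {p | p.1 ∈ S ∧ MvPolynomial.eval₂ (ev p.1) p.2 Δ ≠ 0}

/-- integration over the variables `ν` -/
theorem tower [CompleteSpace A] {R ν : Type} [CommRing R] [IsDomain R] [CharZero R] [Fintype ν]
    {ev : A → R →+* ℂ} {S0 : Set A} (hev : AnEv S0 ev) {Δ : MvPolynomial ν R} (hΔ : Δ ≠ 0) :
    ∃ δ : R, δ ≠ 0 ∧ ∃ Δ1, Δ ∣ Δ1 ∧ ∀ S ⊆ S0, (∀ a ∈ S, ev a δ ≠ 0) → Charted S →
      IsPreconnected S → Charted (offn S ev Δ1) ∧ IsPreconnected (offn S ev Δ1) ∧
        Fibd S (offn S ev Δ1) ∧ (∀ a ∈ S, MvPolynomial.map (ev a) Δ1 ≠ 0) ∧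
        ∀ (r w : ℕ) (V : VHS (A × (ν → ℂ)) (offn S ev Δ1) (Fin r) w),
          ∃ n, Nonempty (Stp V S n (w + Fintype.card ν)) := by
  let f := (Fintype.equivFin ν).symm
  obtain ⟨δ, hδ, D, hD, H⟩ := tower_fin _ A R ev S0 hev (MvPolynomial.rename f.symm Δ)
    fun h => hΔ (MvPolynomial.rename_injective _ f.symm.injective (by simpa using h))
  refine ⟨δ, hδ, MvPolynomial.rename f D, ?_, fun S hS0 h0 hch hS => ?_⟩
  · have := map_dvd (MvPolynomial.rename f) hD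
    simpa using this
  obtain ⟨a1, a2, a3⟩ := H S hS0 h0 hch hS
  let e := ContinuousLinearEquiv.piCongrLeft ℂ (fun _ : ν => ℂ) f
  have he : MeasurePreserving e := volume_measurePreserving_piCongrLeft (fun _ : ν => ℂ) f
  have hΩ : off S ev D = {p : A × (Fin (Fintype.card ν) → ℂ) |
      (p.1, e p.2) ∈ offn S ev (MvPolynomial.rename f D)} := by
    ext p
    have : (e p.2) ∘ f = p.2 := by
      funext i
      exact Equiv.piCongrLeft_apply_apply (fun _ : ν => ℂ) f p.2 i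
    simp only [off, offn, Set.mem_ofPred_eq, MvPolynomial.eval₂_rename, this]
  rw [hΩ] at a1 a2 a3
  have hF := a2.chg he
  refine ⟨hF.charted hch, ?_, hF, fun a ha h => ?_, fun r w V => ?_⟩
  · convert a1.image (fun p => (p.1, e p.2)) (by fun_prop) using 1
    ext p
    refine ⟨fun hp => ⟨(p.1, e.symm p.2), by simpa using hp, by simp⟩, ?_⟩
    rintro ⟨p, hp, rfl⟩
    exact hp
  · obtain ⟨x, hx⟩ := (hF.null a ha).exists
    exact hx.2 (by rw [MvPolynomial.eval₂_eq_eval_map, h, map_zero])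
  · obtain ⟨n, ⟨T⟩⟩ := a3 r w (V.chg e)
    exact ⟨n, ⟨T.chg he⟩⟩

end

end Pool.Agent.Lib.MP_5c318e_ag.V
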