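import Pool.Agent.Lib.MP_5c318e_ag.T.Hol

/-! Composition of two integrations. -/

set_option autoImplicit false
set_option linter.unusedSectionVars false

namespace Pool.Agent.Lib.MP_5c318e_ag.V

open Matrix Filter Topology MeasureTheory Complex Metric
open scoped ComplexOrder ContDiff ComplexConjugate

noncomputable section

variable {ι : Type} [Fintype ι] [DecidableEq ι] {w : ℕ}
  {A : Type} [NormedAddCommGroup A] [NormedSpace ℂ A]
  {Z1 : Type} [NormedAddCommGroup Z1] [NormedSpace ℂ Z1] [FiniteDimensional ℂ Z1] [MeasureSpace Z1]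
  [BorelSpace Z1] [(volume : Measure Z1).IsAddHaarMeasure]
  {Z2 : Type} [NormedAddCommGroup Z2] [NormedSpace ℂ Z2] [FiniteDimensional ℂ Z2] [MeasureSpace Z2]
  [BorelSpace Z2] [(volume : Measure Z2).IsAddHaarMeasure]
  {S : Set A} {Ω1 : Set (A × Z1)} {Ω : Set (A × Z1 × Z2)}

/-- reassociation -/
def asc {A B C : Type} (p : (A × B) × C) : A × B × C := (p.1.1, p.1.2, p.2)

theorem an_asc {A B C : Type} [NormedAddCommGroup A] [NormedSpace ℂ A] [NormedAddCommGroup B]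
    [NormedSpace ℂ B] [NormedAddCommGroup C] [NormedSpace ℂ C] (p : (A × B) × C) :
    AnalyticAt ℂ (asc : (A × B) × C → A × B × C) p :=
  (analyticAt_fst.comp analyticAt_fst).prod
    ((analyticAt_snd.comp analyticAt_fst).prod analyticAt_snd)

theorem an_asc' {A B C : Type} [NormedAddCommGroup A] [NormedSpace ℂ A] [NormedAddCommGroup B]
    [NormedSpace ℂ B] [NormedAddCommGroup C] [NormedSpace ℂ C] (p : A × B × C) :
    AnalyticAt ℂ (fun p : A × B × C => ((p.1, p.2.1), p.2.2)) p :=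
  (analyticAt_fst.prod (analyticAt_fst.comp analyticAt_snd)).prod
    (analyticAt_snd.comp analyticAt_snd)

/-- the variation read over `A × Z1` -/
def VHS.asc (V : VHS (A × Z1 × Z2) Ω ι w) : VHS ((A × Z1) × Z2) (asc ⁻¹' Ω) ι w :=
  V.pull _ (fun p => (p.1.1, p.1.2, p.2)) (fun p _ => an_asc p) fun _ h => h

instance scT (Z : Type) [NormedAddCommGroup Z] [NormedSpace ℂ Z] [FiniteDimensional ℂ Z] :
    SecondCountableTopology Z :=
  have := FiniteDimensional.proper ℂ Z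
  inferInstance

theorem Fibd.comp (h1 : Fibd S Ω1) (h2 : Fibd Ω1 (asc ⁻¹' Ω)) : Fibd S Ω := by
  have sub : ∀ (s : A) (x : Z1 × Z2), (s, x) ∈ Ω → (s, x.1) ∈ Ω1 := fun s x hx =>
    h2.sub ((s, x.1), x.2) hx
  have op : ∀ (E : Type) [NormedAddCommGroup E] [NormedSpace ℂ E] (φ : E → A) (O : Set E),
      IsOpen O → (∀ a ∈ O, Plot S φ a) →
      IsOpen {p : E × Z1 × Z2 | p.1 ∈ O ∧ (φ p.1, p.2) ∈ Ω} := by
    intro E _ _ φ O hO hφ
    have := (h2.op (E × Z1) _ _ (h1.op E φ O hO hφ) (h1.plot hO hφ)).preimage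
      (f := fun p : E × Z1 × Z2 => ((p.1, p.2.1), p.2.2)) (by fun_prop)
    convert this using 1
    ext p
    exact ⟨fun h => ⟨⟨h.1, sub _ _ h.2⟩, h.2⟩, fun h => ⟨h.1.1, h.2⟩⟩
  refine ⟨fun y hy => h1.sub (y.1, y.2.1) (sub _ _ hy), op, fun s hs => ?_⟩
  have ho : IsOpen {x : Z1 × Z2 | (s, x) ∈ Ω} := by
    have := (op ℂ (fun _ => s) Set.univ isOpen_univ fun a _ => plot_const hs a).preimage
      (f := fun x : Z1 × Z2 => ((0 : ℂ), x)) (by fun_prop)
    convert this using 1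
    ext x; simp
  refine (Measure.ae_prod_iff_ae_ae ho.measurableSet).2 ?_
  filter_upwards [h1.null s hs] with x hx
  exact h2.null (s, x) hx

variable {V : VHS (A × Z1 × Z2) Ω ι w} {n1 w1 n w' : ℕ}

theorem fz_asc (h2 : Fibd Ω1 (asc ⁻¹' Ω)) (s : A) :
    {p : Z1 × Z2 | p.1 ∈ fz Ω1 s ∧ ((s, p.1), p.2) ∈ asc ⁻¹' Ω} = fz Ω s :=
  Set.ext fun p => ⟨fun h => h.2, fun h => ⟨h2.sub ((s, p.1), p.2) h, h⟩⟩

theorem aesm_nv {Z : Type} [NormedAddCommGroup Z] [NormedSpace ℂ Z] [FiniteDimensional ℂ Z]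
    [MeasureSpace Z] [BorelSpace Z] {Ω : Set (A × Z)} {V : VHS (A × Z) Ω ι w} (h : Fibd S Ω)
    {s : A} (hs : s ∈ S) {u : Z → ι → ℂ} (hu : V.HolTop (fun x => (s, x)) u (fz Ω s)) :
    AEStronglyMeasurable (fun x => V.nv (s, x) (u x)) volume :=
  aesm_of_continuousOn (h.isOpen_fz hs) (h.null s hs) (hu.continuousOn_nv (h.plot_fz hs))

theorem lint_prod (h : Fibd S Ω) {s : A} (hs : s ∈ S) {u : Z1 × Z2 → ι → ℂ}
    (hu : V.HolTop (fun x => (s, x)) u (fz Ω s)) :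
    ∫⁻ x, ENNReal.ofReal (V.nv (s, x) (u x)) =
      ∫⁻ x1, ∫⁻ x2, ENNReal.ofReal (V.nv (s, x1, x2) (u (x1, x2))) :=
  lintegral_prod _ (aesm_nv h hs hu).aemeasurable.ennreal_ofReal

namespace Stp

variable (T2 : Stp V.asc Ω1 n1 w1) {s : A}

theorem slice2 {u : Z1 × Z2 → ι → ℂ} (hu : V.HolTop (fun x => (s, x)) u (fz Ω s)) (x1 : Z1) :
    V.asc.HolTop (fun x => ((s, x1), x)) (fun x2 => u (x1, x2)) (fz (asc ⁻¹' Ω) (s, x1)) :=
  hu.precomp (g := fun x2 => (x1, x2)) (fun _ _ => analyticAt_const.prod analyticAt_id)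
    fun _ hx => hx

theorem dn2 (h1 : Fibd S Ω1) (hs : s ∈ S) {u : Z1 × Z2 → ι → ℂ}
    (hu : V.HolTop (fun x => (s, x)) u (fz Ω s)) (hi : Integrable fun x => V.nv (s, x) (u x)) :
    T2.W.HolTop (fun x1 => (s, x1)) (fun x1 => T2.dn (s, x1) fun x2 => u (x1, x2)) (fz Ω1 s) ∧
      ∀ x1 ∈ fz Ω1 s, Integrable fun x2 => V.nv (s, x1, x2) (u (x1, x2)) := by
  refine T2.fam_dn Z1 volume (fun x1 => (s, x1)) (fz Ω1 s) u (h1.isOpen_fz hs) (h1.plot_fz hs)
    (by rw [fz_asc T2.fibd]; exact hu) fun a _ => ⟨Set.univ, univ_mem, ?_⟩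
  rw [Measure.restrict_univ]
  exact (lint_prod (h1.comp T2.fibd) hs hu).symm.trans_lt hi.lintegral_lt_top

theorem int_iff (h1 : Fibd S Ω1) (hs : s ∈ S) {u : Z1 × Z2 → ι → ℂ}
    (hu : V.HolTop (fun x => (s, x)) u (fz Ω s))
    (hi : ∀ x1 ∈ fz Ω1 s, Integrable fun x2 => V.nv (s, x1, x2) (u (x1, x2))) :
    (Integrable fun x => V.nv (s, x) (u x)) ↔
      Integrable fun x1 => T2.W.nv (s, x1) (T2.dn (s, x1) fun x2 => u (x1, x2)) := by
  refine (integrable_prod_iff (aesm_nv (h1.comp T2.fibd) hs hu)).trans ?_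
  rw [and_iff_right ((h1.null s hs).mono fun x hx => hi x hx)]
  refine integrable_congr ?_
  filter_upwards [h1.null s hs] with x hx
  rw [T2.nv_dn hx (slice2 hu x) (hi x hx)]
  refine integral_congr_ae ?_
  filter_upwards [T2.fibd.null (s, x) hx] with y hy
  exact Real.norm_of_nonneg (V.nv_nonneg hy _)

variable (T1 : Stp T2.W S n w')

theorem up2 (hs : s ∈ S) {v : Fin n → ℂ} (hv : T1.W.π w' s *ᵥ v = v) :
    V.HolTop (fun x => (s, x)) (fun x => T2.up (s, x.1) (T1.up s v x.1) x.2) (fz Ω s) := by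
  have := T2.fam_up Z1 (fun x1 => (s, x1)) (fz Ω1 s) _ (T1.fibd.isOpen_fz hs) (T1.fibd.plot_fz hs)
    (T1.up_top s hs v hv).1
  rw [fz_asc T2.fibd] at this
  exact this

theorem up2_int (hs : s ∈ S) {v : Fin n → ℂ} (hv : T1.W.π w' s *ᵥ v = v) :
    Integrable fun x : Z1 × Z2 => V.nv (s, x) (T2.up (s, x.1) (T1.up s v x.1) x.2) := by
  obtain ⟨h1, h2, -⟩ := T1.up_top s hs v hv
  refine (T2.int_iff T1.fibd hs (T2.up2 T1 hs hv) fun x hx =>
    (T2.up_top (s, x) hx _ (h1 x hx).2).2.1).2 (h2.congr ?_)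
  filter_upwards [T1.fibd.null s hs] with x hx
  exact congrArg _ (T2.up_top (s, x) hx _ (h1 x hx).2).2.2.symm

/-- integration over `Z2` and then over `Z1` -/
def comp : Stp V S n w' where
  W := T1.W
  up := fun s =>
    { toFun := fun v x => T2.up (s, x.1) (T1.up s v x.1) x.2
      map_add' := fun v v' => by
        funext x
        simp only [map_add, Pi.add_apply]
      map_smul' := fun c v => by
        funext x
        simp only [map_smul, Pi.smul_apply, RingHom.id_apply] }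
  dn := fun s u => T1.dn s fun x1 => T2.dn (s, x1) fun x2 => u (x1, x2)
  ed := fun ε => T1.ed (T2.ed fun p => ε (asc p))
  fibd := T1.fibd.comp T2.fibd
  up_top := fun s hs v hv => by
    obtain ⟨h1, h2, h3⟩ := T1.up_top s hs v hv
    refine ⟨T2.up2 T1 hs hv, T2.up2_int T1 hs hv, Eq.trans ?_ h3⟩
    exact T1.dn_congr hs h1 h2 fun x hx => (T2.up_top (s, x) hx _ (h1 x hx).2).2.2
  up_iso := fun s hs v v' hv hv' => by
    have hf := T1.fibd.comp T2.fibd
    have hi : Integrable fun x : Z1 × Z2 => qf (V.H (s, x)) (T2.up (s, x.1) (T1.up s v x.1) x.2)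
        (T2.up (s, x.1) (T1.up s v' x.1) x.2) := by
      refine ((T2.up2_int T1 hs hv).add (T2.up2_int T1 hs hv')).mono'
        (aesm_of_continuousOn (hf.isOpen_fz hs) (hf.null s hs)
          ((T2.up2 T1 hs hv).continuousOn_qf (hf.plot_fz hs) (T2.up2 T1 hs hv'))) ?_
      filter_upwards [hf.null s hs] with x hx
      exact V.norm_qf_le hx _ _
    refine (T1.up_iso s hs v v' hv hv').trans (Eq.trans ?_ (integral_prod _ hi).symm)
    refine integral_congr_ae ?_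
    filter_upwards [T1.fibd.null s hs] with x hx
    exact T2.up_iso (s, x) hx _ _ ((T1.up_top s hs v hv).1 x hx).2
      ((T1.up_top s hs v' hv').1 x hx).2
  dn_top := fun s hs u hu hi => by
    obtain ⟨h1, h2⟩ := T2.dn2 T1.fibd hs hu hi
    obtain ⟨h3, h4⟩ := T1.dn_top s hs _ h1 ((T2.int_iff T1.fibd hs hu h2).1 hi)
    refine ⟨h3, fun x hx => ?_⟩
    have hx1 : x.1 ∈ fz Ω1 s := T2.fibd.sub ((s, x.1), x.2) hx
    change T2.up (s, x.1) (T1.up s _ x.1) x.2 = _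
    rw [h4 _ hx1]
    exact (T2.dn_top (s, x.1) hx1 _ (slice2 hu x.1) (h2 _ hx1)).2 x.2 hx
  ed_end := fun ε hε => T1.ed_end _ (T2.ed_end _
    ⟨fun y hy => (((an_asc y).continuousAt.continuousWithinAt (s := asc ⁻¹' Ω)).tendsto_nhdsWithin
      fun _ h => h).eventually (hε.flat _ hy), fun _ hy => hε.comm _ hy, fun _ hy => hε.adj _ hy⟩)
  ed_up := fun ε hε s hs v x hx => by
    have hx1 : x.1 ∈ fz Ω1 s := T2.fibd.sub ((s, x.1), x.2) hx
    have hε2 : V.asc.End fun p => ε (asc p) :=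
      ⟨fun y hy => (((an_asc y).continuousAt.continuousWithinAt
        (s := asc ⁻¹' Ω)).tendsto_nhdsWithin fun _ h => h).eventually (hε.flat _ hy),
        fun _ hy => hε.comm _ hy, fun _ hy => hε.adj _ hy⟩
    change T2.up (s, x.1) (T1.up s _ x.1) x.2 = _
    rw [T1.ed_up _ (T2.ed_end _ hε2) s hs v _ hx1]
    exact T2.ed_up _ hε2 (s, x.1) hx1 _ x.2 hx
  ed_idem := fun ε hε hi => by
    have hε2 : V.asc.End fun p => ε (asc p) :=
      ⟨fun y hy => (((an_asc y).continuousAt.continuousWithinAt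
        (s := asc ⁻¹' Ω)).tendsto_nhdsWithin fun _ h => h).eventually (hε.flat _ hy),
        fun _ hy => hε.comm _ hy, fun _ hy => hε.adj _ hy⟩
    exact T1.ed_idem _ (T2.ed_end _ hε2) (T2.ed_idem _ hε2 fun y hy => hi _ hy)
  fam_dn := fun E _ _ _ _ _ μ _ φ O u hO hφ hu hi => by
    have hf := T1.fibd.comp T2.fibd
    have hO1 := T1.fibd.op E φ O hO hφ
    have hu2 : V.asc.HolTop (fun p : (E × Z1) × Z2 => ((φ p.1.1, p.1.2), p.2))
        (fun p => u (asc p)) {p | p.1 ∈ {p : E × Z1 | p.1 ∈ O ∧ (φ p.1, p.2) ∈ Ω1} ∧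
          ((φ p.1.1, p.1.2), p.2) ∈ asc ⁻¹' Ω} :=
      hu.precomp (g := asc) (fun p _ => an_asc p) fun _ hp => ⟨hp.1.1, hp.2⟩
    have hi' : ∀ a ∈ O, ∃ N ∈ 𝓝 a, IsOpen N ∧ N ⊆ O ∧ ∫⁻ a' in N, (∫⁻ x1, ∫⁻ x2,
        ENNReal.ofReal (V.nv (φ a', x1, x2) (u (a', x1, x2)))) ∂μ < ⊤ := by
      intro a ha
      obtain ⟨N, hN, h⟩ := hi a ha
      obtain ⟨N', h1, h2, h3⟩ := _root_.mem_nhds_iff.1 (inter_mem hN (hO.mem_nhds ha))
      refine ⟨N', h2.mem_nhds h3, h2, fun _ h => (h1 h).2, lt_of_le_of_lt ?_ h⟩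
      refine le_trans (le_of_eq ?_) (lintegral_mono_set fun _ h => (h1 h).1)
      refine setLIntegral_congr_fun h2.measurableSet fun a' ha' => ?_
      exact (lint_prod hf (hφ _ (h1 ha').2).mem (hu.slice (h1 ha').2)).symm
    obtain ⟨h1, h2⟩ := T2.fam_dn (E × Z1) (μ.prod volume) (fun p => (φ p.1, p.2)) _ _ hO1
      (T1.fibd.plot hO hφ) hu2 fun p hp => by
        obtain ⟨N, hN, -, -, h⟩ := hi' p.1 hp.1
        refine ⟨N ×ˢ Set.univ, prod_mem_nhds hN univ_mem, lt_of_le_of_lt ?_ h⟩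
        rw [← Measure.restrict_prod_eq_prod_univ]
        exact lintegral_prod_le _
    obtain ⟨h3, h4⟩ := T1.fam_dn E μ φ O _ hO hφ h1 fun a ha => by
      obtain ⟨N, hN, ho, hs, h⟩ := hi' a ha
      refine ⟨N, hN, lt_of_eq_of_lt ?_ h⟩
      refine setLIntegral_congr_fun ho.measurableSet fun a' ha' => lintegral_congr_ae ?_
      filter_upwards [T1.fibd.null _ (hφ _ (hs ha')).mem] with x hx
      exact T2.ofReal_nv_dn hx (slice2 (hu.slice (hs ha')) x) (h2 (a', x) ⟨hs ha', hx⟩)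
    exact ⟨h3, fun a ha => (T2.int_iff T1.fibd (hφ a ha).mem (hu.slice ha)
      fun x hx => h2 (a, x) ⟨ha, hx⟩).2 (h4 a ha)⟩
  fam_up := fun E _ _ _ φ O v hO hφ hv =>
    (T2.fam_up (E × Z1) (fun p => (φ p.1, p.2)) _ _ (T1.fibd.op E φ O hO hφ) (T1.fibd.plot hO hφ)
      (T1.fam_up E φ O v hO hφ hv)).precomp
      (g := fun p : E × Z1 × Z2 => ((p.1, p.2.1), p.2.2)) (fun p _ => an_asc' p)
      fun p hp => ⟨⟨hp.1, T2.fibd.sub ((φ p.1, p.2.1), p.2.2) hp.2⟩, hp.2⟩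

end Stp

end

end Pool.Agent.Lib.MP_5c318e_ag.V
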