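import Pool.Agent.Lib.MP_5c318e_ag.T.Hol

/-! The variation of weight zero attached to a finite covering. -/

set_option autoImplicit false
set_option linter.unusedSectionVars false

namespace Pool.Agent.Lib.MP_5c318e_ag.V

open Matrix Filter Topology MeasureTheory Complex Metric
open scoped ComplexOrder ContDiff ComplexConjugate

noncomputable section

/-- a permutation as an integral matrix -/
def permGL {d : ℕ} (e : Equiv.Perm (Fin d)) : GL (Fin d) ℤ :=
  ⟨e.permMatrix ℤ, e⁻¹.permMatrix ℤ, by rw [← permMatrix_mul]; simp, by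
    rw [← permMatrix_mul]; simp⟩

theorem cx_permGL {d : ℕ} (e : Equiv.Perm (Fin d)) : cx (permGL e) = e.permMatrix ℂ := by
  ext i j
  simp [cx, permGL, Equiv.Perm.permMatrix, PEquiv.toMatrix_apply]

theorem permGL_one {d : ℕ} : permGL (1 : Equiv.Perm (Fin d)) = 1 :=
  Units.ext (by simp [permGL])

theorem permGL_mul {d : ℕ} (e e' : Equiv.Perm (Fin d)) : permGL (e * e') = permGL e' * permGL e :=
  Units.ext (by simp [permGL, permMatrix_mul])

section Top

variable {C P : Type} [TopologicalSpace C] [TopologicalSpace P] {Ω : Set C} {pr : P → C} {d : ℕ}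

theorem ev_ne [T2Space P] {f g : C → P} {y : C} (hf : ContinuousWithinAt f Ω y)
    (hg : ContinuousWithinAt g Ω y) (h : f y ≠ g y) : ∀ᶠ y' in 𝓝[Ω] y, f y' ≠ g y' :=
  (hf.prodMk hg).eventually (isClosed_diagonal.isOpen_compl.mem_nhds (x := (f y, g y)) h)

theorem Sheets.self {σ : Fin d → C → P} {y : C} (h : Sheets Ω pr σ y) (hy : y ∈ Ω) :
    (∀ i, ContinuousWithinAt (σ i) Ω y ∧ pr (σ i y) = y) ∧
      (Function.Injective fun i => σ i y) ∧ ∀ p, pr p = y → ∃ i, σ i y = p :=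
  h.self_of_nhdsWithin hy

theorem Sheets.ev {σ : Fin d → C → P} {y : C} (h : Sheets Ω pr σ y) :
    ∀ᶠ y' in 𝓝[Ω] y, Sheets Ω pr σ y' := eventually_eventually_nhdsWithin.2 h

/-- a continuous section agrees with one of the sheets -/
theorem Sheets.uniq [T2Space P] {σ : Fin d → C → P} {y : C} (h : Sheets Ω pr σ y) (hy : y ∈ Ω)
    {f : C → P} (hf : ContinuousWithinAt f Ω y) (hp : ∀ᶠ y' in 𝓝[Ω] y, pr (f y') = y') {j : Fin d}
    (e : f y = σ j y) : ∀ᶠ y' in 𝓝[Ω] y, f y' = σ j y' := by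
  obtain ⟨h1, h2, -⟩ := h.self hy
  have : ∀ᶠ y' in 𝓝[Ω] y, ∀ k, k ≠ j → f y' ≠ σ k y' := by
    refine eventually_all.2 fun k => ?_
    by_cases hk : k = j
    · simp [hk]
    · exact (ev_ne hf (h1 k).1 fun e' => hk (h2 (e'.symm.trans e))).mono fun _ h _ => h
  filter_upwards [this, h, hp] with y' h3 h4 h5
  obtain ⟨k, hk⟩ := h4.2.2 _ h5
  by_contra hne
  exact h3 k (fun e' => hne (e' ▸ hk.symm)) hk.symm

theorem Sheets.mono {σ : Fin d → C → P} {y : C} (h : Sheets Ω pr σ y) {Ω' : Set C} (hs : Ω' ⊆ Ω) :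
    Sheets Ω' pr σ y :=
  (h.filter_mono (nhdsWithin_mono _ hs)).mono fun _ h =>
    ⟨fun i => ⟨(h.1 i).1.mono hs, (h.1 i).2⟩, h.2⟩

/-- the sheets through a point list its fibre -/
def fibEquiv {σ : Fin d → C → P} {y : C}
    (h : (∀ i, ContinuousWithinAt (σ i) Ω y ∧ pr (σ i y) = y) ∧
      (Function.Injective fun i => σ i y) ∧ ∀ p, pr p = y → ∃ i, σ i y = p) :
    Fin d ≃ {p // pr p = y} :=
  Equiv.ofBijective (fun i => ⟨σ i y, (h.1 i).2⟩)
    ⟨fun _ _ e => h.2.1 (congrArg Subtype.val e), fun p =>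
      (h.2.2 p.1 p.2).imp fun _ e => Subtype.ext e⟩

theorem exists_cov (hΩ : IsPreconnected Ω)
    (h : ∀ y ∈ Ω, ∃ (d : ℕ) (σ : Fin d → C → P), Sheets Ω pr σ y) :
    ∃ d, Nonempty (Cov Ω pr d) := by
  classical
  have hc : ∀ y ∈ Ω, ∀ᶠ y' in 𝓝[Ω] y, Nat.card {p // pr p = y'} = Nat.card {p // pr p = y} := by
    intro y hy
    obtain ⟨d, σ, hσ⟩ := h y hy
    filter_upwards [hσ] with y' h'
    rw [← Nat.card_congr (fibEquiv h'), ← Nat.card_congr (fibEquiv (hσ.self hy))]
  rcases Ω.eq_empty_or_nonempty with rfl | ⟨y0, h0⟩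
  · exact ⟨0, ⟨⟨fun _ i => i.elim0, fun _ h => h.elim⟩⟩⟩
  have hk : ∀ y ∈ Ω, Nat.card {p // pr p = y} = Nat.card {p // pr p = y0} := fun y hy =>
    hΩ.constant (f := fun y => Nat.card {p // pr p = y})
      (fun y hy => tendsto_const_nhds.congr' ((hc y hy).mono fun _ e => e.symm)) hy h0
  have : ∀ y, ∃ σ : Fin (Nat.card {p // pr p = y0}) → C → P, y ∈ Ω → Sheets Ω pr σ y := by
    have key : ∀ y ∈ Ω, ∃ σ : Fin (Nat.card {p // pr p = y0}) → C → P, Sheets Ω pr σ y := by
      intro y hy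
      obtain ⟨d, σ, hσ⟩ := h y hy
      have e : d = Nat.card {p // pr p = y0} := by
        rw [← hk y hy, ← Nat.card_congr (fibEquiv (hσ.self hy))]; simp
      subst e
      exact ⟨σ, hσ⟩
    intro y
    by_cases hy : y ∈ Ω
    · exact (key y hy).imp fun _ h _ => h
    · exact (key y0 h0).imp fun _ _ h => (hy h).elim
  choose σ hσ using this
  exact ⟨_, ⟨⟨σ, hσ⟩⟩⟩

/-- two spaces spread over `C`, the first a finite covering: it is a finite covering of the
second -/
theorem Sheets.over {B : Type} [TopologicalSpace B] [T2Space B] {σ : Fin d → C → P} {O : Set B}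
    {q : B → C} {r : P → B} {y : B} (h : Sheets Ω (fun p => q (r p)) σ (q y)) (hy : y ∈ O)
    (hq : ContinuousOn q O) (hm : Set.MapsTo q O Ω) (hr : Continuous r)
    (hO : ∀ p, q (r p) ∈ Ω → r p ∈ O) (hi : ∃ N ∈ 𝓝[O] y, Set.InjOn q N) :
    ∃ (d' : ℕ) (σ' : Fin d' → B → P), Sheets O r σ' y := by
  classical
  obtain ⟨N, hN, hinj⟩ := hi
  let e := (Finset.univ.filter fun i => r (σ i (q y)) = y).equivFin.symm
  have ht : Tendsto q (𝓝[O] y) (𝓝[Ω] q y) := (hq y hy).tendsto_nhdsWithin hm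
  have h0 := h.self (hm hy)
  have hc : ∀ i, ContinuousWithinAt (fun y' => r (σ i (q y'))) O y := fun i =>
    hr.continuousAt.comp_continuousWithinAt ((h0.1 i).1.comp (hq y hy) hm)
  have h1 : ∀ᶠ y' in 𝓝[O] y, ∀ i, r (σ i (q y)) = y → r (σ i (q y')) ∈ N := by
    refine eventually_all.2 fun i => ?_
    by_cases hi : r (σ i (q y)) = y
    · have : Tendsto (fun y' => r (σ i (q y'))) (𝓝[O] y) (𝓝[O] y) := by
        refine tendsto_nhdsWithin_iff.2 ⟨by simpa [ContinuousWithinAt, hi] using hc i, ?_⟩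
        filter_upwards [ht.eventually h, self_mem_nhdsWithin] with y' h1 h2
        exact hO _ (by rw [(h1.1 i).2]; exact hm h2)
      exact (this.eventually hN).mono fun _ h _ => h
    · simp [hi]
  have h2 : ∀ᶠ y' in 𝓝[O] y, ∀ i, r (σ i (q y)) ≠ y → r (σ i (q y')) ≠ y' := by
    refine eventually_all.2 fun i => ?_
    by_cases hi : r (σ i (q y)) = y
    · simp [hi]
    · exact (ev_ne (hc i) continuousWithinAt_id hi).mono fun _ h _ => h
  refine ⟨_, fun j y' => σ (e j).1 (q y'), ?_⟩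
  filter_upwards [h1, h2, hN, ht.eventually h, self_mem_nhdsWithin] with y' h1 h2 h3 h4 h5
  refine ⟨fun j => ⟨(h4.1 _).1.comp (hq y' h5) hm,
    hinj (h1 _ (Finset.mem_filter.1 (e j).2).2) h3 (h4.1 _).2⟩,
    fun j k hjk => e.injective (Subtype.ext (h4.2.1 hjk)), fun p hp => ?_⟩
  obtain ⟨i, hi⟩ := h4.2.2 p (by rw [hp])
  have : r (σ i (q y)) = y := by
    by_contra hne
    exact h2 i hne (by rw [hi, hp])
  exact ⟨e.symm ⟨i, by simpa using this⟩, by simpa using hi⟩

namespace Cov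

variable (K : Cov Ω pr d)

/-- restriction to a subset -/
def mono {Ω' : Set C} (hs : Ω' ⊆ Ω) : Cov Ω' pr d := ⟨K.σ, fun y hy => (K.sh y (hs hy)).mono hs⟩

/-- the reference frame lists the fibre -/
def equiv {y : C} (hy : y ∈ Ω) : Fin d ≃ {p // pr p = y} := fibEquiv ((K.sh y hy).self hy)

theorem equiv_apply {y : C} (hy : y ∈ Ω) (i : Fin d) : (K.equiv hy i : P) = K.σ y i y := rfl

theorem pr_σ {y : C} (hy : y ∈ Ω) (i : Fin d) : pr (K.σ y i y) = y := (((K.sh y hy).self hy).1 i).2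

theorem inj {y : C} (hy : y ∈ Ω) : Function.Injective fun i => K.σ y i y :=
  ((K.sh y hy).self hy).2.1

theorem surj {p : P} (hp : pr p ∈ Ω) : ∃ i, K.σ (pr p) i (pr p) = p :=
  ((K.sh _ hp).self hp).2.2 p rfl

open Classical in
/-- the change of reference frame -/
def prm (y y' : C) : Equiv.Perm (Fin d) :=
  if h : ∃ e : Equiv.Perm (Fin d), ∀ i, K.σ y i y' = K.σ y' (e i) y' then h.choose else 1

theorem prm_ev {y : C} (hy : y ∈ Ω) :
    ∀ᶠ y' in 𝓝[Ω] y, ∀ i, K.σ y i y' = K.σ y' (K.prm y y' i) y' := by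
  filter_upwards [K.sh y hy, self_mem_nhdsWithin] with y' h1 h2
  have h : ∃ e : Equiv.Perm (Fin d), ∀ i, K.σ y i y' = K.σ y' (e i) y' :=
    ⟨(fibEquiv h1).trans (K.equiv h2).symm, fun i =>
      (congrArg Subtype.val ((K.equiv h2).apply_symm_apply (fibEquiv h1 i))).symm⟩
  rw [prm, dif_pos h]
  exact h.choose_spec

theorem germ [T2Space P] : Germ Ω fun y y' => permGL (K.prm y y') where
  self := fun y hy => by
    have : K.prm y y = 1 :=
      Equiv.ext fun i => (K.inj hy (((K.prm_ev hy).self_of_nhdsWithin hy) i)).symm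
    rw [this, permGL_one]
  coc := fun y hy => by
    filter_upwards [(K.sh y hy).ev, K.prm_ev hy, eventually_eventually_nhdsWithin.2 (K.prm_ev hy),
      self_mem_nhdsWithin] with y' h1 h2 h3 h4
    have h5 : ∀ᶠ y'' in 𝓝[Ω] y', ∀ i, K.σ y i y'' = K.σ y' (K.prm y y' i) y'' :=
      eventually_all.2 fun i => (K.sh y' h4).uniq h4 ((h1.self h4).1 i).1
        (Eventually.mono h1 fun _ h => (h.1 i).2) (h2 i)
    filter_upwards [h3, h5, K.prm_ev h4, self_mem_nhdsWithin] with y'' h6 h7 h8 h9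
    rw [← permGL_mul]
    congr 1
    exact Equiv.ext fun i => K.inj h9 ((h6 i).symm.trans ((h7 i).trans (h8 _)))

open Classical in
/-- the function on the covering with given values on the fibres -/
def fn (u : C → Fin d → ℂ) (p : P) : ℂ :=
  if h : ∃ i, K.σ (pr p) i (pr p) = p then u (pr p) h.choose else 0

theorem vec_fn (u : C → Fin d → ℂ) {y : C} (hy : y ∈ Ω) : K.vec (K.fn u) y = u y := by
  funext i
  have e := K.pr_σ hy i
  have h : ∃ j, K.σ (pr (K.σ y i y)) j (pr (K.σ y i y)) = K.σ y i y := ⟨i, by rw [e]⟩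
  have h2 := h.choose_spec
  simp only [vec, fn, dif_pos h]
  generalize h.choose = j at h2 ⊢
  rw [e] at h2 ⊢
  rw [K.inj hy h2]

theorem fn_vec (f : P → ℂ) {p : P} (hp : pr p ∈ Ω) : K.fn (K.vec f) p = f p := by
  have h := K.surj hp
  simp only [vec, fn, dif_pos h, h.choose_spec]

theorem vec_inj {f g : P → ℂ} {p : P} (hp : pr p ∈ Ω) (e : K.vec f (pr p) = K.vec g (pr p)) :
    f p = g p := by
  obtain ⟨i, hi⟩ := K.surj hp
  simpa only [vec, hi] using congrFun e i

end Cov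

end Top

namespace Cov

variable {A : Type} [NormedAddCommGroup A] [NormedSpace ℂ A] {Ω : Set A}
  {P : Type} [TopologicalSpace P] [T2Space P] {pr : P → A} {d : ℕ} (K : Cov Ω pr d)

/-- the variation of weight zero of a finite covering -/
def V0 : VHS A Ω (Fin d) 0 where
  κ := fun y y' => permGL (K.prm y y')
  ψ := fun _ => 1
  π := fun p _ => if p = 0 then 1 else 0
  germ := K.germ
  flat := fun y _ => Eventually.of_forall fun y' => by
    rw [cx_permGL, conjTranspose_permMatrix, Matrix.mul_one, ← permMatrix_mul]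
    simp
  phs := fun _ _ =>
    { prj :=
        { sum := by simp [wt]
          idem := fun p => by split_ifs <;> simp
          orth := fun p q h => by
            split_ifs with h1 h2
            · exact (h (h1.trans h2.symm)).elim
            all_goals simp
          zero := fun p hp => if_neg fun e => hp (by simp [wt, e]) }
      adj := fun p => by split_ifs <;> simp
      pos := by simpa [weyP, wt] using PosDef.one }
  ax := fun E _ _ φ a _ => by
    have e : (fun (p : ℤ) (a' : E) => cx (permGL (K.prm (φ a) (φ a'))) *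
        (if p = 0 then 1 else 0) * cx (permGL (K.prm (φ a) (φ a')))⁻¹) =
        fun p _ => if p = 0 then 1 else 0 := by
      funext p a'
      split_ifs <;> simp [cx_mul_inv]
    have e2 : gr (wt 0) (fun (p : ℤ) (_ : E) =>
        if p = 0 then (1 : Matrix (Fin d) (Fin d) ℂ) else 0) = fun _ => 0 := by
      funext x
      simp [gr, wt]
    rw [e]
    exact ⟨fun _ => smM_const _, fun ξ => by rw [e2, derM_const]; simp⟩

theorem V0_H (y : A) : K.V0.H y = 1 := by simp [VHS.H, V0, wey, wt]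

theorem V0_top (y : A) (u : Fin d → ℂ) : K.V0.π (0 : ℕ) y *ᵥ u = u := by simp [V0]

theorem V0_qf (y : A) (u v : Fin d → ℂ) : qf (K.V0.H y) u v = ∑ i, conj (u i) * v i := by
  simp [V0_H, qf, dotProduct]

theorem V0_nv (y : A) (u : Fin d → ℂ) : K.V0.nv y u = ∑ i, ‖u i‖ ^ 2 := by
  simp [VHS.nv, V0_qf, Complex.conj_mul', ← Complex.ofReal_pow]

theorem V0_κ (y y' : A) (u : Fin d → ℂ) :
    cx (K.V0.κ y y') *ᵥ u = fun i => u (K.prm y y' i) := by
  change cx (permGL _) *ᵥ u = _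
  rw [cx_permGL, permMatrix_mulVec]
  rfl

variable {E : Type} [NormedAddCommGroup E] [NormedSpace ℂ E] {φ : E → A} {O : Set E}

theorem V0_ev {a : E} (hφ : Plot Ω φ a) (f : E → P → ℂ) : ∀ᶠ a' in 𝓝 a,
    cx (K.V0.κ (φ a) (φ a')) *ᵥ K.vec (f a') (φ a') = fun i => f a' (K.σ (φ a) i (φ a')) := by
  filter_upwards [hφ.tendsto.eventually (K.prm_ev hφ.mem)] with a' h
  rw [V0_κ]
  funext i
  rw [h i, vec]

/-- holomorphic sections are the functions that are holomorphic along the sheets -/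
theorem holTop_iff (hφ : ∀ a ∈ O, Plot Ω φ a) (f : E → P → ℂ) :
    K.V0.HolTop φ (fun a => K.vec (f a) (φ a)) O ↔
      ∀ a ∈ O, ∀ i, AnalyticAt ℂ (fun a' => f a' (K.σ (φ a) i (φ a'))) a := by
  refine forall₂_congr fun a ha => ?_
  rw [and_iff_left (K.V0_top _ _), analyticAt_congr (K.V0_ev (hφ a ha) f), analyticAt_pi_iff]

/-- a holomorphic section is holomorphic along every continuous lift -/
theorem analyticAt_lift {u : E → Fin d → ℂ} {a : E} (hφ : Plot Ω φ a)
    (h : AnalyticAt ℂ (fun a' => cx (K.V0.κ (φ a) (φ a')) *ᵥ u a') a) {l : E → P}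
    (hl : ContinuousAt l a) (hp : ∀ᶠ a' in 𝓝 a, pr (l a') = φ a') :
    AnalyticAt ℂ (fun a' => K.fn (fun _ => u a') (l a')) a := by
  have hs := (K.sh _ hφ.mem).self hφ.mem
  obtain ⟨j, hj⟩ := hs.2.2 _ hp.self_of_nhds
  have hc : ∀ k, ContinuousAt (fun a' => K.σ (φ a) k (φ a')) a := fun k =>
    (hs.1 k).1.tendsto.comp hφ.tendsto
  have h1 : ∀ᶠ a' in 𝓝 a, ∀ k, k ≠ j → l a' ≠ K.σ (φ a) k (φ a') := by
    refine eventually_all.2 fun k => ?_
    by_cases hk : k = j
    · simp [hk]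
    · exact ((hl.prodMk (hc k)).eventually (isClosed_diagonal.isOpen_compl.mem_nhds
        (x := (l a, K.σ (φ a) k (φ a))) fun e => hk (hs.2.1 (e.symm.trans hj.symm)))).mono
        fun _ h _ => h
  refine (analyticAt_pi_iff.1 h j).congr ?_
  filter_upwards [h1, hp, hφ.tendsto.eventually (K.sh _ hφ.mem), hφ.2,
    K.V0_ev hφ fun a' => K.fn fun _ => u a'] with a' h2 h3 h4 h5 h6
  obtain ⟨k, hk⟩ := h4.2.2 _ h3
  have : k = j := by
    by_contra hne
    exact h2 k hne hk.symm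
  rw [K.vec_fn _ h5] at h6
  rw [h6, ← hk, this]

end Cov

end

end Pool.Agent.Lib.MP_5c318e_ag.V
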