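import Mathlib

/-! Separable multiples of radicals of polynomials over a domain of characteristic zero, and the
splitting of the first variable of a multivariate polynomial. -/

set_option autoImplicit false

namespace Pool.Agent.Lib.MP_5c318e_ag.Tw

open Polynomial

theorem clear_den {R K : Type} [CommRing R] [IsDomain R] [Field K] [Algebra R K]
    [IsFractionRing R K] (p : K[X]) :
    ∃ b : R, b ≠ 0 ∧ ∃ q : R[X], q.map (algebraMap R K) = C (algebraMap R K b) * p := by
  obtain ⟨b, hb, h⟩ := IsLocalization.integerNormalization_spec (nonZeroDivisors R) p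
  exact ⟨b, nonZeroDivisors.ne_zero hb, _, by
    rw [h, Algebra.smul_def, Polynomial.algebraMap_apply]⟩

/-- off `c = 0` the polynomial `q` keeps its degree, has simple roots, and its roots contain
the roots of `d` -/
theorem exists_sep {R : Type} [CommRing R] [IsDomain R] [CharZero R] {d : R[X]} (hd : d ≠ 0) :
    ∃ (q : R[X]) (c : R), c ≠ 0 ∧ (∃ k : ℕ, d ∣ C c * q ^ k) ∧
      (∃ u v : R[X], u * q + v * derivative q = C c) ∧ q.leadingCoeff ∣ c := by
  classical
  let K := FractionRing R
  have inj : Function.Injective (algebraMap R K) := IsFractionRing.injective R K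
  have minj : Function.Injective (Polynomial.map (algebraMap R K)) :=
    Polynomial.map_injective _ inj
  have : CharZero K := charZero_of_injective_algebraMap inj
  have hd' : d.map (algebraMap R K) ≠ 0 := fun h => hd (minj (by simpa using h))
  set p := UniqueFactorizationMonoid.radical (d.map (algebraMap R K)) with hp
  have hsep : p.Separable :=
    PerfectField.separable_iff_squarefree.2 UniqueFactorizationMonoid.squarefree_radical
  obtain ⟨k, e, he⟩ := UniqueFactorizationMonoid.exists_dvd_radical_self_pow hd'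
  obtain ⟨u, v, huv⟩ := hsep
  obtain ⟨b, hb, q, hq⟩ := clear_den (R := R) p
  obtain ⟨b1, hb1, e1, he1⟩ := clear_den (R := R) e
  obtain ⟨b2, hb2, u1, hu1⟩ := clear_den (R := R) u
  obtain ⟨b3, hb3, v1, hv1⟩ := clear_den (R := R) v
  have hq0 : q ≠ 0 := by
    rintro rfl
    have : C (algebraMap R K b) * p ≠ 0 :=
      mul_ne_zero (by simpa using hb) UniqueFactorizationMonoid.radical_ne_zero
    exact this (by rw [← hq]; simp)
  have hl : q.leadingCoeff ≠ 0 := leadingCoeff_ne_zero.2 hq0
  have h1 : C b1 * q ^ k = d * (C (b ^ k) * e1) := by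
    apply minj
    simp only [Polynomial.map_mul, Polynomial.map_pow, map_C, hq, he1, map_pow, mul_pow]
    rw [← hp] at he
    rw [he]; ring
  have h2 : (C b3 * u1) * q + (C b2 * v1) * derivative q = C (b * b2 * b3) := by
    apply minj
    simp only [Polynomial.map_mul, Polynomial.map_add, map_C, hq, hu1, hv1, map_mul,
      ← derivative_map, derivative_mul, derivative_C, zero_mul, zero_add]
    linear_combination (C (algebraMap R K b) * C (algebraMap R K b2) * C (algebraMap R K b3)) * huv
  refine ⟨q, q.leadingCoeff * b1 * (b * b2 * b3), by simp [hl, hb, hb1, hb2, hb3],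
    ⟨k, C (q.leadingCoeff * (b * b2 * b3)) * (C (b ^ k) * e1), ?_⟩,
    ⟨C (q.leadingCoeff * b1) * (C b3 * u1), C (q.leadingCoeff * b1) * (C b2 * v1), ?_⟩,
    ⟨b1 * (b * b2 * b3), by ring⟩⟩
  · simp only [map_mul] at *
    linear_combination (C q.leadingCoeff * (C b * C b2 * C b3)) * h1
  · simp only [map_mul] at *
    linear_combination (C q.leadingCoeff * C b1) * h2

/-- specialisation of `exists_sep` -/
theorem sep_map {R : Type} [CommRing R] {q : R[X]} {c : R}
    (h2 : ∃ u v : R[X], u * q + v * derivative q = C c) (h3 : q.leadingCoeff ∣ c)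
    (e : R →+* ℂ) (he : e c ≠ 0) :
    e q.leadingCoeff ≠ 0 ∧ (q.map e).natDegree = q.natDegree ∧ (q.map e).Separable := by
  have hl : e q.leadingCoeff ≠ 0 := by
    obtain ⟨t, rfl⟩ := h3
    rw [map_mul] at he
    exact left_ne_zero_of_mul he
  refine ⟨hl, natDegree_map_of_leadingCoeff_ne_zero _ hl, ?_⟩
  obtain ⟨u, v, h⟩ := h2
  have := congrArg (Polynomial.map e) h
  simp only [Polynomial.map_add, Polynomial.map_mul, map_C, ← derivative_map] at this
  refine ⟨C (e c)⁻¹ * u.map e, C (e c)⁻¹ * v.map e, ?_⟩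
  rw [mul_assoc, mul_assoc, ← mul_add, this, ← map_mul, inv_mul_cancel₀ he, map_one]

theorem ne_of_dvd {R : Type} [CommRing R] {d q : R[X]} {c : R}
    (h1 : ∃ k : ℕ, d ∣ C c * q ^ k) (e : R →+* ℂ) (he : e c ≠ 0) {x : ℂ}
    (hx : q.eval₂ e x ≠ 0) : d.eval₂ e x ≠ 0 := by
  obtain ⟨k, t, h⟩ := h1
  intro h0
  have := congrArg (eval₂RingHom e x) h
  simp only [map_mul, map_pow, coe_eval₂RingHom, eval₂_C, h0, zero_mul] at this
  exact mul_ne_zero he (pow_ne_zero _ hx) this

/-- the first variable goes to the coefficient ring -/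
noncomputable def spl (R : Type) [CommRing R] (N : ℕ) :
    MvPolynomial (Fin (N + 1)) R ≃ₐ[R] MvPolynomial (Fin N) R[X] :=
  (MvPolynomial.renameEquiv R (finSuccEquiv N)).trans (MvPolynomial.optionEquivRight R (Fin N))

theorem eval_spl {R : Type} [CommRing R] {N : ℕ} (e : R →+* ℂ) (z : Fin (N + 1) → ℂ)
    (P : MvPolynomial (Fin (N + 1)) R) :
    MvPolynomial.eval₂ (eval₂RingHom e (z 0)) (fun i => z i.succ) (spl R N P) =
      MvPolynomial.eval₂ e z P := by
  have : (MvPolynomial.eval₂Hom (eval₂RingHom e (z 0)) fun i : Fin N => z i.succ).comp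
      (spl R N : MvPolynomial (Fin (N + 1)) R →+* MvPolynomial (Fin N) R[X]) =
      MvPolynomial.eval₂Hom e z := by
    apply MvPolynomial.ringHom_ext
    · intro r
      simp [spl]
    · intro i
      refine Fin.cases ?_ (fun j => ?_) i
      · simp [spl]
      · simp [spl]
  exact congrArg (fun f : MvPolynomial (Fin (N + 1)) R →+* ℂ => f P) this

end Pool.Agent.Lib.MP_5c318e_ag.Tw
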