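import Pool.Agent.Lib.MP_5c318e_ag.T.Hol
import Pool.Agent.Lib.MP_5c318e_ag.T.Sep
import Pool.Agent.Lib.MP_5c318e_ag.V.Motion

/-! Holomorphic roots, charts and connectedness of the levels of a tower. -/

set_option autoImplicit false
set_option linter.unusedSectionVars false

namespace Pool.Agent.Lib.MP_5c318e_ag.V

open Filter Topology MeasureTheory Polynomial
open scoped ContDiff

noncomputable section

variable {A : Type} [NormedAddCommGroup A] [NormedSpace ℂ A] {S : Set A}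

theorem exists_root [CompleteSpace A] {F : A × ℂ → ℂ} {s : A} {r c : ℂ}
    (hF : AnalyticAt ℂ F (s, r)) (h0 : F (s, r) = 0) (hd : HasDerivAt (fun x => F (s, x)) c r)
    (hc : c ≠ 0) : ∃ ρ : A → ℂ, AnalyticAt ℂ ρ s ∧ ρ s = r ∧ (∀ᶠ a in 𝓝 s, F (a, ρ a) = 0) ∧
      ∀ᶠ p in 𝓝 (s, r), F p = 0 → ρ p.1 = p.2 := by
  have cdf : ContDiffAt ℂ ω F (s, r) := hF.contDiffAt
  have h1 : HasFDerivAt (fun x => F (s, x))
      (fderiv ℂ F (s, r) ∘L ContinuousLinearMap.inr ℂ A ℂ) r :=
    hF.differentiableAt.hasFDerivAt.comp r (hasFDerivAt_prodMk_right s r)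
  have h2 : (fderiv ℂ F (s, r) ∘L ContinuousLinearMap.inr ℂ A ℂ).IsInvertible := by
    rw [h1.unique hd.hasFDerivAt]
    exact ⟨ContinuousLinearEquiv.unitsEquivAut ℂ (Units.mk0 c hc), by ext; simp⟩
  refine ⟨cdf.implicitFunction (by simp) h2,
    (cdf.contDiffAt_implicitFunction (by simp) h2).analyticAt,
    cdf.implicitFunction_apply_self (by simp) h2, ?_, ?_⟩
  · simpa only [h0] using cdf.eventually_apply_implicitFunction (by simp) h2
  · filter_upwards [cdf.eventually_apply_eq_iff_implicitFunction (by simp) h2] with p hp h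
    exact hp.1 (h.trans h0.symm)

variable {R : Type} [CommRing R] {ev : A → R →+* ℂ}

theorem AnEv.mono (h : AnEv S ev) {S' : Set A} (hs : S' ⊆ S) : AnEv S' ev := fun r s hs' =>
  (h r s (hs hs')).imp fun _ h => ⟨h.1, h.2.filter_mono (nhdsWithin_mono _ hs)⟩

theorem AnEv.poly (h : AnEv S ev) (q : R[X]) {s : A} (hs : s ∈ S) : ∃ F : A × ℂ → ℂ,
    (∀ x, AnalyticAt ℂ F (s, x)) ∧ ∀ᶠ s' in 𝓝[S] s, ∀ x, F (s', x) = q.eval₂ (ev s') x := by
  choose f hf using fun r => h r s hs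
  refine ⟨fun p => ∑ i ∈ q.support, f (q.coeff i) p.1 * p.2 ^ i, fun x => ?_, ?_⟩
  · exact Finset.analyticAt_fun_sum _ fun i _ =>
      (AnalyticAt.comp (g := f (q.coeff i)) (hf _).1 analyticAt_fst).mul (analyticAt_snd.pow i)
  · filter_upwards [(eventually_all_finset q.support).2 fun i _ => (hf (q.coeff i)).2] with s' h x
    rw [eval₂_eq_sum, Polynomial.sum_def]
    exact Finset.sum_congr rfl fun i hi => by rw [h i hi]

theorem AnEv.step (h : AnEv S ev) :
    AnEv (S ×ˢ Set.univ) fun p : A × ℂ => eval₂RingHom (ev p.1) p.2 := fun q p hp => by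
  obtain ⟨F, h1, h2⟩ := h.poly q hp.1
  refine ⟨F, h1 p.2, ?_⟩
  exact ((continuousWithinAt_fst.tendsto_nhdsWithin (t := S) fun _ h => h.1).eventually h2).mono
    fun p' h => h p'.2

theorem roots_of_sep [CompleteSpace A] (h : AnEv S ev) {q : R[X]}
    (hq : ∀ s ∈ S, (q.map (ev s)).natDegree = q.natDegree ∧ (q.map (ev s)).Separable) :
    Roots S {p | p.1 ∈ S ∧ q.eval₂ (ev p.1) p.2 ≠ 0} := by
  classical
  intro s hs
  obtain ⟨F, h1, h2⟩ := h.poly q hs
  have h3 := h2.self_of_nhdsWithin hs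
  obtain ⟨hd, hsep⟩ := hq s hs
  have hcard : (q.map (ev s)).roots.toFinset.card = q.natDegree := by
    rw [Multiset.toFinset_card_of_nodup (nodup_roots hsep), ← hd]
    exact IsAlgClosed.card_roots_eq_natDegree
  let e := (q.map (ev s)).roots.toFinset.equivFinOfCardEq hcard
  have hr : ∀ i, (q.map (ev s)).eval (e.symm i : ℂ) = 0 := fun i =>
    isRoot_of_mem_roots (Multiset.mem_toFinset.1 (e.symm i).2)
  have : ∀ i, ∃ ρ : A → ℂ, AnalyticAt ℂ ρ s ∧ ρ s = e.symm i ∧ ∀ᶠ a in 𝓝 s, F (a, ρ a) = 0 := by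
    intro i
    have e1 : (fun x => F (s, x)) = fun x => (q.map (ev s)).eval x := by
      funext x
      rw [h3, eval_map]
    obtain ⟨ρ, a1, a2, a3, -⟩ := exists_root (h1 (e.symm i)) (by rw [h3, ← eval_map, hr])
      (by rw [e1]; exact (q.map (ev s)).hasDerivAt _)
      (hsep.eval₂_derivative_ne_zero (RingHom.id ℂ) (hr i))
    exact ⟨ρ, a1, a2, a3⟩
  choose ρ a1 a2 a3 using this
  have hinj : Function.Injective fun i => ρ i s := fun i j hij =>
    e.symm.injective (Subtype.ext (by simpa only [a2] using hij))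
  have a4 : ∀ᶠ a in 𝓝 s, ∀ i j, i ≠ j → ρ i a - ρ j a ≠ 0 := by
    refine eventually_all.2 fun i => eventually_all.2 fun j => ?_
    by_cases hij : i = j
    · simp [hij]
    · exact (((a1 i).sub (a1 j)).continuousAt.eventually_ne
        (sub_ne_zero.2 fun e => hij (hinj e))).mono fun _ h _ => h
  refine ⟨_, ρ, a1, hinj, ?_⟩
  filter_upwards [h2, self_mem_nhdsWithin, mem_nhdsWithin_of_mem_nhds a4,
    mem_nhdsWithin_of_mem_nhds (eventually_all.2 a3)] with s' b1 b2 b3 b4 x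
  obtain ⟨hd', hsep'⟩ := hq s' b2
  have hsub : Finset.univ.image (fun i => ρ i s') ⊆ (q.map (ev s')).roots.toFinset := by
    intro y hy
    obtain ⟨i, -, rfl⟩ := Finset.mem_image.1 hy
    rw [Multiset.mem_toFinset, mem_roots hsep'.ne_zero, IsRoot, eval_map, ← b1]
    exact b4 i
  have heq := Finset.eq_of_subset_of_card_le hsub (by
    rw [Finset.card_image_of_injective _ fun i j hij => by
      by_contra hne
      exact b3 i j hne (sub_eq_zero.2 hij), Finset.card_univ, Fintype.card_fin, ← hd']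
    exact (Multiset.toFinset_card_le _).trans (card_roots' _))
  have : q.eval₂ (ev s') x = 0 ↔ ∃ i, ρ i s' = x := by
    rw [← eval_map, ← IsRoot, ← mem_roots hsep'.ne_zero, ← Multiset.mem_toFinset, ← heq]
    simp
  simp only [ne_eq, this, not_exists]
  exact ⟨fun h i e => h.2 i e.symm, fun h => ⟨b2, fun i e => h i e.symm⟩⟩

theorem Roots.fibd {Ω : Set (A × ℂ)} (h : Roots S Ω) (hs : ∀ y ∈ Ω, y.1 ∈ S) : Fibd S Ω :=
  ⟨hs, fun _ _ _ _ _ hO hφ => h.isOpen hO hφ, fun _ hs => (h.fin hs).measure_zero _⟩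

theorem Roots.preconnected_fb {Ω : Set (A × ℂ)} (h : Roots S Ω) {s : A} (hs : s ∈ S) :
    IsPreconnected (fz Ω s) := by
  have := ((h.fin hs).countable.isConnected_compl_of_one_lt_rank
    (by rw [Complex.rank_real_complex]; norm_num)).isPreconnected
  rwa [compl_compl] at this

theorem Plot.exists_open [CompleteSpace A] {E : Type} [NormedAddCommGroup E] [NormedSpace ℂ E] {φ : E → A}
    {a : E} (h : Plot S φ a) : ∃ O, IsOpen O ∧ a ∈ O ∧ ∀ a' ∈ O, Plot S φ a' := by
  obtain ⟨O, h1, h2, h3⟩ := eventually_nhds_iff.1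
    (h.1.eventually_analyticAt.and h.2.eventually_nhds)
  exact ⟨O, h2, h3, h1⟩

variable {Z : Type} [NormedAddCommGroup Z] [NormedSpace ℂ Z] [MeasureSpace Z] {Ω : Set (A × Z)}

theorem Fibd.ev_mem [CompleteSpace A] (h : Fibd S Ω) (hc : Charted S) {y : A × Z} (hy : y ∈ Ω) :
    ∀ᶠ y' in 𝓝[S ×ˢ Set.univ] y, y' ∈ Ω := by
  obtain ⟨m, σ, p, h1, h2, -, h4⟩ := hc _ (h.sub y hy)
  obtain ⟨O, o1, o2, o3⟩ := h1.exists_open
  have h5 := h4.self_of_nhdsWithin (h.sub y hy)
  have h6 := (h.op _ σ O o1 o3).mem_nhds (x := (p y.1, y.2)) ⟨o2, by simpa only [h5] using hy⟩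
  have h7 : ContinuousAt (fun y' : A × Z => (p y'.1, y'.2)) y :=
    (h2.continuousAt.comp continuousAt_fst).prodMk continuousAt_snd
  filter_upwards [mem_nhdsWithin_of_mem_nhds (h7.eventually h6),
    (continuousWithinAt_fst.tendsto_nhdsWithin (t := S) fun _ h => h.1).eventually h4]
    with y' a1 a2
  simpa only [a2] using a1.2

theorem Fibd.charted [CompleteSpace A] [FiniteDimensional ℂ Z] (h : Fibd S Ω) (hc : Charted S) :
    Charted Ω := fun y hy => by
  obtain ⟨m, σ, p, h1, h2, h3, h4⟩ := hc _ (h.sub y hy)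
  obtain ⟨O, o1, o2, o3⟩ := h1.exists_open
  have h5 := h4.self_of_nhdsWithin (h.sub y hy)
  let L := (Module.finBasis ℂ ((Fin m → ℂ) × Z)).equivFunL
  have h6 : ContinuousAt (fun a => (L.symm a).1) (L (p y.1, y.2)) := by fun_prop
  refine ⟨_, fun a => (σ (L.symm a).1, (L.symm a).2), fun y' => L (p y'.1, y'.2), ?_, ?_, ?_, ?_⟩
  · refine Plot.precomp (φ := fun q : (Fin m → ℂ) × Z => (σ q.1, q.2)) (g := L.symm) ?_
      (L.symm.analyticAt _)
    rw [L.symm_apply_apply]
    exact h.plot o1 o3 _ ⟨o2, by simpa only [h5] using hy⟩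
  · exact AnalyticAt.comp (g := L) (L.analyticAt _)
      ((AnalyticAt.comp (g := p) h2 analyticAt_fst).prod analyticAt_snd)
  · filter_upwards [h6.eventually (by simpa only [L.symm_apply_apply] using h3)] with a ha
    rw [ha, L.apply_symm_apply]
  · filter_upwards [(continuousWithinAt_fst.tendsto_nhdsWithin (t := S) h.sub).eventually h4]
      with y' a
    rw [L.symm_apply_apply, a]

theorem Fibd.preconnected [CompleteSpace A] [NeZero (volume : Measure Z)] (h : Fibd S Ω)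
    (hc : Charted S) (hS : IsPreconnected S) (hf : ∀ s ∈ S, IsPreconnected (fz Ω s)) :
    IsPreconnected Ω := by
  refine isPreconnected_of_forall_constant fun f hf' x hx y hy => ?_
  have h1 : ∀ s ∈ S, ∀ a ∈ fz Ω s, ∀ b ∈ fz Ω s, f (s, a) = f (s, b) := fun s hs a ha b hb =>
    (hf s hs).constant (f := fun a => f (s, a))
      (hf'.comp (by fun_prop) fun _ h => h) ha hb
  have : ∀ s, ∃ a, s ∈ S → a ∈ fz Ω s := fun s => by
    by_cases hs : s ∈ S
    · exact (h.null s hs).exists.imp fun _ h _ => h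
    · exact ⟨0, fun h => (hs h).elim⟩
  choose c hc' using this
  have h2 : ContinuousOn (fun s => f (s, c s)) S := fun s hs => by
    have a1 : Tendsto (fun s' => (s', c s)) (𝓝[S] s) (𝓝[S ×ˢ Set.univ] (s, c s)) :=
      (by fun_prop : ContinuousWithinAt (fun s' => (s', c s)) S s).tendsto_nhdsWithin
        fun _ h => ⟨h, trivial⟩
    have a2 := a1.eventually (h.ev_mem hc (hc' s hs))
    have a3 : Tendsto (fun s' => (s', c s)) (𝓝[S] s) (𝓝[Ω] (s, c s)) :=
      tendsto_nhdsWithin_iff.2 ⟨a1.mono_right nhdsWithin_le_nhds, a2⟩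
    refine ((hf' _ (hc' s hs)).tendsto.comp a3).congr' ?_
    filter_upwards [a2, self_mem_nhdsWithin] with s' b1 b2
    exact h1 s' b2 _ b1 _ (hc' s' b2)
  exact (h1 _ (h.sub x hx) x.2 hx _ (hc' _ (h.sub x hx))).trans
    ((hS.constant h2 (h.sub x hx) (h.sub y hy)).trans
      (h1 _ (h.sub y hy) _ (hc' _ (h.sub y hy)) y.2 hy))

end

end Pool.Agent.Lib.MP_5c318e_ag.V
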