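import Pool.Agent.Lib.MP_5c318e_ag.V.SDefs

/-! Integration over several variables, and finite coverings: definitions. -/

set_option autoImplicit false

namespace Pool.Agent.Lib.MP_5c318e_ag.V

open Matrix Filter Topology MeasureTheory Complex Metric
open scoped ComplexOrder ContDiff ComplexConjugate

noncomputable section

variable {ι : Type} [Fintype ι] [DecidableEq ι] {w : ℕ}
  {A : Type} [NormedAddCommGroup A] [NormedSpace ℂ A]

section

variable {Z : Type} [NormedAddCommGroup Z] [NormedSpace ℂ Z] [MeasureSpace Z]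

/-- the fibre of `Ω` over `s` -/
def fz (Ω : Set (A × Z)) (s : A) : Set Z := {x | (s, x) ∈ Ω}

/-- `Ω` lies over `S`, is open along plots of `S`, and its fibres have full measure -/
structure Fibd (S : Set A) (Ω : Set (A × Z)) : Prop where
  sub : ∀ y ∈ Ω, y.1 ∈ S
  op : ∀ (E : Type) [NormedAddCommGroup E] [NormedSpace ℂ E] (φ : E → A) (O : Set E), IsOpen O →
    (∀ a ∈ O, Plot S φ a) → IsOpen {p : E × Z | p.1 ∈ O ∧ (φ p.1, p.2) ∈ Ω}
  null : ∀ s ∈ S, ∀ᵐ x, (s, x) ∈ Ω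

/-- the variation of weight `w'` obtained by integration over the variables `Z` -/
structure Stp {Ω : Set (A × Z)} (V : VHS (A × Z) Ω ι w) (S : Set A) (n w' : ℕ) where
  W : VHS A S (Fin n) w'
  up : A → (Fin n → ℂ) →ₗ[ℂ] Z → ι → ℂ
  dn : A → (Z → ι → ℂ) → Fin n → ℂ
  ed : (A × Z → Matrix ι ι ℂ) → A → Matrix (Fin n) (Fin n) ℂ
  fibd : Fibd S Ω
  up_top : ∀ s ∈ S, ∀ v, W.π w' s *ᵥ v = v →
    V.HolTop (fun x => (s, x)) (up s v) (fz Ω s) ∧
      (Integrable fun x => V.nv (s, x) (up s v x)) ∧ dn s (up s v) = v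
  up_iso : ∀ s ∈ S, ∀ v v', W.π w' s *ᵥ v = v → W.π w' s *ᵥ v' = v' →
    qf (W.H s) v v' = ∫ x, qf (V.H (s, x)) (up s v x) (up s v' x)
  dn_top : ∀ s ∈ S, ∀ u, V.HolTop (fun x => (s, x)) u (fz Ω s) →
    (Integrable fun x => V.nv (s, x) (u x)) →
    W.π w' s *ᵥ dn s u = dn s u ∧ ∀ x ∈ fz Ω s, up s (dn s u) x = u x
  ed_end : ∀ ε, V.End ε → W.End (ed ε)
  ed_up : ∀ ε, V.End ε → ∀ s ∈ S, ∀ v, ∀ x ∈ fz Ω s, up s (ed ε s *ᵥ v) x = ε (s, x) *ᵥ up s v x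
  ed_idem : ∀ ε, V.End ε → (∀ y ∈ Ω, ε y * ε y = ε y) → ∀ s ∈ S, ed ε s * ed ε s = ed ε s
  fam_dn : ∀ (E : Type) [NormedAddCommGroup E] [NormedSpace ℂ E] [FiniteDimensional ℂ E]
    [MeasurableSpace E] [BorelSpace E] (μ : Measure E) [μ.IsAddHaarMeasure] (φ : E → A)
    (O : Set E) (u : E × Z → ι → ℂ), IsOpen O → (∀ a ∈ O, Plot S φ a) →
    V.HolTop (fun p : E × Z => (φ p.1, p.2)) u {p | p.1 ∈ O ∧ (φ p.1, p.2) ∈ Ω} →
    (∀ a ∈ O, ∃ N ∈ 𝓝 a,
      ∫⁻ a' in N, (∫⁻ x, ENNReal.ofReal (V.nv (φ a', x) (u (a', x)))) ∂μ < ⊤) →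
    W.HolTop φ (fun a => dn (φ a) fun x => u (a, x)) O ∧
      ∀ a ∈ O, Integrable fun x => V.nv (φ a, x) (u (a, x))
  fam_up : ∀ (E : Type) [NormedAddCommGroup E] [NormedSpace ℂ E] [FiniteDimensional ℂ E]
    (φ : E → A) (O : Set E) (v : E → Fin n → ℂ), IsOpen O → (∀ a ∈ O, Plot S φ a) →
    W.HolTop φ v O →
    V.HolTop (fun p : E × Z => (φ p.1, p.2)) (fun p => up (φ p.1) (v p.1) p.2)
      {p | p.1 ∈ O ∧ (φ p.1, p.2) ∈ Ω}

end

/-- the evaluations of the elements of `R` have holomorphic germs along `S` -/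
def AnEv {R : Type} [CommRing R] (S : Set A) (ev : A → R →+* ℂ) : Prop :=
  ∀ r, ∀ s ∈ S, ∃ f : A → ℂ, AnalyticAt ℂ f s ∧ ∀ᶠ s' in 𝓝[S] s, f s' = ev s' r

/-- the part of `S × ℂ^N` where a polynomial does not vanish -/
def off {R : Type} [CommRing R] {N : ℕ} (S : Set A) (ev : A → R →+* ℂ)
    (Δ : MvPolynomial (Fin N) R) : Set (A × (Fin N → ℂ)) :=
  {p | p.1 ∈ S ∧ MvPolynomial.eval₂ (ev p.1) p.2 Δ ≠ 0}

section

variable {C P : Type} [TopologicalSpace C] [TopologicalSpace P]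

/-- `σ` lists the sheets of `pr` over the points of `Ω` near `y` -/
def Sheets (Ω : Set C) (pr : P → C) {d : ℕ} (σ : Fin d → C → P) (y : C) : Prop :=
  ∀ᶠ y' in 𝓝[Ω] y, (∀ i, ContinuousWithinAt (σ i) Ω y' ∧ pr (σ i y') = y') ∧
    (Function.Injective fun i => σ i y') ∧ ∀ p, pr p = y' → ∃ i, σ i y' = p

/-- a covering with `d` sheets over `Ω`, with a choice of the sheets near each point -/
structure Cov (Ω : Set C) (pr : P → C) (d : ℕ) where
  σ : C → Fin d → C → P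
  sh : ∀ y ∈ Ω, Sheets Ω pr (σ y) y

/-- the values of a function on the fibre over `y` -/
def Cov.vec {Ω : Set C} {pr : P → C} {d : ℕ} (K : Cov Ω pr d) (f : P → ℂ) (y : C) : Fin d → ℂ :=
  fun i => f (K.σ y i y)

end

end

end Pool.Agent.Lib.MP_5c318e_ag.V
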